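import Pool.Agent.WRA.Top

set_option autoImplicit false

/-!
# The correlation with a nearly weakly read-once program, bottom version
-/

namespace Pool.Agent.WRA

open Module
open Pool.Agent.WRL

variable {E : Type} [AddCommGroup E] [Module (ZMod 2) E] [Fintype E]

namespace LBP

variable (P : LBP E)

omit [Fintype E] in
lemma post_mono {u w : P.V} (h : P.Reach u w) : P.Post w ≤ P.Post u := by
  apply Submodule.span_mono
  rintro l ⟨a, h1, h2, h3⟩
  exact ⟨a, h.trans h1, h2, h3⟩

omit [Fintype E] in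
lemma mem_post {v : P.V} (h : P.leaf v = none) : P.form v ∈ P.Post v :=
  Submodule.subset_span ⟨v, Relation.ReflTransGen.refl, h, rfl⟩

omit [Fintype E] in
lemma post_leaf {v : P.V} (h : P.leaf v ≠ none) : P.Post v = ⊥ := by
  rw [Post, Submodule.span_eq_bot]
  rintro l ⟨u, h1, h2, -⟩
  rcases Relation.ReflTransGen.cases_head h1 with rfl | ⟨w, ⟨h3, -⟩, -⟩
  · exact absurd h2 h
  · exact absurd h3 h

omit [Fintype E] in
lemma tst_le_post (v : P.V) (x : E) : P.Tst v x ≤ P.Post v := by
  rw [Tst, Submodule.span_le]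
  rintro l ⟨t, h1, rfl⟩
  exact Submodule.subset_span ⟨_, P.reach_iter x v t, h1, rfl⟩

/-- Before the time `t` the spaces `Post` are large. -/
def Big (r : ℕ) (x : E) (t : ℕ) : Prop :=
  ∀ s < t, r < finrank (ZMod 2) (P.Post ((P.step x)^[s] P.start))

/-- The span of the forms which are tested before the cut. -/
def Bef (r : ℕ) (x : E) : Submodule (ZMod 2) (Dual (ZMod 2) E) :=
  Submodule.span (ZMod 2) {l | ∃ t : ℕ, P.Big r x (t + 1) ∧
    P.leaf ((P.step x)^[t] P.start) = none ∧ l = P.form ((P.step x)^[t] P.start)}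

lemma bef_iter {r : ℕ} {x y : E} (h : y ∈ cell (P.Bef r x) x) (t : ℕ) (ht : P.Big r x t) :
    (P.step y)^[t] P.start = (P.step x)^[t] P.start := by
  induction t with
  | zero => rfl
  | succ t ih =>
    rw [Function.iterate_succ_apply', Function.iterate_succ_apply',
      ih fun s hs => ht s (hs.trans (Nat.lt_succ_self t))]
    by_cases h1 : P.leaf ((P.step x)^[t] P.start) = none
    · rw [P.step_inner h1, P.step_inner h1,
        mem_cell.1 h _ (Submodule.subset_span ⟨t, ht, h1, rfl⟩)]
    · rw [P.step_leaf h1, P.step_leaf h1]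

lemma big_congr {r : ℕ} {x y : E} (h : y ∈ cell (P.Bef r x) x) (t : ℕ) :
    P.Big r y t ↔ P.Big r x t := by
  induction t with
  | zero => exact ⟨fun _ s hs => absurd hs (Nat.not_lt_zero s),
      fun _ s hs => absurd hs (Nat.not_lt_zero s)⟩
  | succ t ih =>
    constructor
    · intro h1
      have h2 : P.Big r x t := ih.1 fun s hs => h1 s (hs.trans (Nat.lt_succ_self t))
      intro s hs
      rcases Nat.lt_succ_iff_lt_or_eq.1 hs with h3 | rfl
      · exact h2 s h3
      · rw [← P.bef_iter h s h2]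
        exact h1 s hs
    · intro h1
      have h2 : P.Big r x t := fun s hs => h1 s (hs.trans (Nat.lt_succ_self t))
      intro s hs
      rcases Nat.lt_succ_iff_lt_or_eq.1 hs with h3 | rfl
      · exact ih.2 h2 s h3
      · rw [P.bef_iter h s h2]
        exact h1 s hs

lemma bef_congr {r : ℕ} {x y : E} (h : y ∈ cell (P.Bef r x) x) : P.Bef r y = P.Bef r x := by
  unfold Bef
  congr 1
  ext l
  constructor
  · rintro ⟨t, h1, h2, h3⟩
    have h4 := (P.big_congr h _).1 h1
    have h5 := P.bef_iter h t fun s hs => h4 s (hs.trans (Nat.lt_succ_self t))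
    rw [h5] at h2 h3
    exact ⟨t, h4, h2, h3⟩
  · rintro ⟨t, h1, h2, h3⟩
    have h4 := (P.big_congr h _).2 h1
    have h5 := P.bef_iter h t fun s hs => h1 s (hs.trans (Nat.lt_succ_self t))
    rw [← h5] at h2 h3
    exact ⟨t, h4, h2, h3⟩

/-- The cut: the first node `v` of the path with `finrank (Post v) ≤ r`. -/
def CutB (r : ℕ) (x : E) (v : P.V) : Prop :=
  ∃ t : ℕ, (P.step x)^[t] P.start = v ∧ P.Big r x t ∧ finrank (ZMod 2) (P.Post v) ≤ r

lemma cutB_congr' {r : ℕ} {x y : E} (h : y ∈ cell (P.Bef r x) x) {v : P.V}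
    (hv : P.CutB r x v) : P.CutB r y v := by
  obtain ⟨t, h1, h2, h3⟩ := hv
  exact ⟨t, by rw [P.bef_iter h t h2, h1], (P.big_congr h t).2 h2, h3⟩

lemma cutB_congr {r : ℕ} {x y : E} (h : y ∈ cell (P.Bef r x) x) {v : P.V} :
    P.CutB r y v ↔ P.CutB r x v := by
  refine ⟨fun h1 => P.cutB_congr' ?_ h1, P.cutB_congr' h⟩
  rw [P.bef_congr h]
  exact mem_cell_comm.1 h

omit [Fintype E] in
lemma exists_cutB (r : ℕ) (x : E) : ∃ v, P.CutB r x v := by
  classical
  obtain ⟨t, ht⟩ := P.exists_leaf x _ P.start rfl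
  have h1 : ∃ t, finrank (ZMod 2) (P.Post ((P.step x)^[t] P.start)) ≤ r :=
    ⟨t, by rw [P.post_leaf ht, finrank_bot]; exact Nat.zero_le _⟩
  refine ⟨_, Nat.find h1, rfl, fun s hs => ?_, Nat.find_spec h1⟩
  have := Nat.find_min h1 hs
  omega

omit [Fintype E] in
lemma cutB_unique {r : ℕ} {x : E} {v w : P.V} (hv : P.CutB r x v) (hw : P.CutB r x w) : v = w := by
  obtain ⟨i, hi, hi1, hi2⟩ := hv
  obtain ⟨j, hj, hj1, hj2⟩ := hw
  have h : i = j := by
    rcases lt_trichotomy i j with h | h | h
    · have := hj1 i h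
      rw [hi] at this
      omega
    · exact h
    · have := hi1 j h
      rw [hj] at this
      omega
  rw [← hi, ← hj, h]

lemma bef_bound (x : E) (t : ℕ) : ∃ D : Submodule (ZMod 2) (Dual (ZMod 2) E),
    finrank (ZMod 2) D + finrank (ZMod 2) (P.Post ((P.step x)^[t] P.start)) ≤
      finrank (ZMod 2) E ∧
    Submodule.span (ZMod 2) {l | ∃ s : ℕ, s < t ∧ P.leaf ((P.step x)^[s] P.start) = none ∧
      l = P.form ((P.step x)^[s] P.start)} ≤ D ⊔ P.RedBot x := by
  have : FiniteDimensional (ZMod 2) E := Module.Finite.of_finite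
  have hdim : finrank (ZMod 2) (Dual (ZMod 2) E) = finrank (ZMod 2) E :=
    Subspace.dual_finrank_eq
  induction t with
  | zero =>
    refine ⟨⊥, ?_, ?_⟩
    · rw [finrank_bot, zero_add, ← hdim]
      exact Submodule.finrank_le _
    · rw [Submodule.span_le]
      rintro l ⟨s, hs, -⟩
      exact absurd hs (Nat.not_lt_zero s)
  | succ t ih =>
    obtain ⟨D, hD1, hD2⟩ := ih
    obtain ⟨w, hw⟩ : ∃ w, w = (P.step x)^[t] P.start := ⟨_, rfl⟩
    have hvis : P.Visits x w := ⟨t, hw.symm⟩
    have hstep : (P.step x)^[t + 1] P.start = P.step x w := by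
      rw [Function.iterate_succ_apply', hw]
    have hmono : P.Post (P.step x w) ≤ P.Post w := P.post_mono (P.reach_step x w)
    rw [← hw] at hD1
    rw [hstep]
    -- the forms of the first `t + 1` nodes
    have hsub : ∀ U : Submodule (ZMod 2) (Dual (ZMod 2) E), D ⊔ P.RedBot x ≤ U →
        (P.leaf w = none → P.form w ∈ U) →
        Submodule.span (ZMod 2) {l | ∃ s : ℕ, s < t + 1 ∧
          P.leaf ((P.step x)^[s] P.start) = none ∧ l = P.form ((P.step x)^[s] P.start)} ≤ U := by
      intro U hU1 hU2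
      rw [Submodule.span_le]
      rintro l ⟨s, hs, h1, h2⟩
      rcases Nat.lt_succ_iff_lt_or_eq.1 hs with h3 | rfl
      · exact hU1 (hD2 (Submodule.subset_span ⟨s, h3, h1, h2⟩))
      · rw [← hw] at h1 h2
        rw [h2]
        exact hU2 h1
    by_cases h : P.leaf w = none ∧ P.form w ∉ P.Post (P.step x w)
    · have hlt : P.Post (P.step x w) < P.Post w :=
        lt_of_le_of_ne hmono fun h1 => h.2 (h1 ▸ P.mem_post h.1)
      refine ⟨Submodule.span (ZMod 2) {P.form w} ⊔ D, ?_, hsub _ ?_ fun _ => ?_⟩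
      · have h1 := Submodule.finrank_lt_finrank_of_lt hlt
        have h2 := Submodule.finrank_add_le_finrank_add_finrank
          (Submodule.span (ZMod 2) {P.form w}) D
        have h3 := finrank_span_one (P.form w)
        omega
      · exact sup_le_sup_right le_sup_right _
      · exact Submodule.mem_sup_left (Submodule.mem_sup_left
          (Submodule.mem_span_singleton_self _))
    · refine ⟨D, ?_, hsub _ (le_refl _) fun h1 => ?_⟩
      · have := Submodule.finrank_mono hmono
        omega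
      · by_cases h2 : P.form w ∈ P.Post (P.step x w)
        · exact Submodule.mem_sup_right (Submodule.subset_span ⟨w, hvis, h1, h2, rfl⟩)
        · exact absurd ⟨h1, h2⟩ h

lemma bef_le {a k : ℕ} (ha : a ≤ finrank (ZMod 2) E) {x : E}
    (hk : finrank (ZMod 2) (P.RedBot x) ≤ k) {v : P.V}
    (h : P.CutB (finrank (ZMod 2) E - a) x v) :
    finrank (ZMod 2) (P.Bef (finrank (ZMod 2) E - a) x) ≤ a + k := by
  have : FiniteDimensional (ZMod 2) E := Module.Finite.of_finite
  obtain ⟨t, h1, h2, h3⟩ := h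
  set r := finrank (ZMod 2) E - a with hr
  have hlt : ∀ s, P.Big r x (s + 1) → s < t := by
    intro s hs
    by_contra hcon
    push Not at hcon
    have := hs t (Nat.lt_succ_of_le hcon)
    rw [h1] at this
    omega
  cases t with
  | zero =>
    have h4 : P.Bef r x = ⊥ := by
      rw [Bef, Submodule.span_eq_bot]
      rintro l ⟨s, hs, -⟩
      exact absurd (hlt s hs) (Nat.not_lt_zero s)
    rw [h4, finrank_bot]
    exact Nat.zero_le _
  | succ t =>
    obtain ⟨D, hD1, hD2⟩ := P.bef_bound x t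
    have h4 : P.Bef r x ≤ Submodule.span (ZMod 2) {P.form ((P.step x)^[t] P.start)} ⊔
        (D ⊔ P.RedBot x) := by
      rw [Bef, Submodule.span_le]
      rintro l ⟨s, hs, h5, h6⟩
      rcases Nat.lt_succ_iff_lt_or_eq.1 (hlt s hs) with h7 | rfl
      · exact Submodule.mem_sup_right (hD2 (Submodule.subset_span ⟨s, h7, h5, h6⟩))
      · rw [h6]
        exact Submodule.mem_sup_left (Submodule.mem_span_singleton_self _)
    have h5 := Submodule.finrank_mono h4
    have h6 := Submodule.finrank_add_le_finrank_add_finrank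
      (Submodule.span (ZMod 2) {P.form ((P.step x)^[t] P.start)}) (D ⊔ P.RedBot x)
    have h7 := Submodule.finrank_add_le_finrank_add_finrank D (P.RedBot x)
    have h8 := finrank_span_one (P.form ((P.step x)^[t] P.start))
    have h9 := h2 t (Nat.lt_succ_self t)
    omega

omit [Fintype E] in
lemma cutB_visits {r : ℕ} {x : E} {v : P.V} (h : P.CutB r x v) : P.Visits x v := by
  obtain ⟨t, h1, -⟩ := h
  exact ⟨t, h1⟩

/-- **The correlation bound, bottom version.** -/
theorem corr_bot {f : E → ZMod 2} {a k : ℕ} {ε δ : ℝ} (hf : DirExt f (2 * (a + k)) ε)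
    (hε : 0 ≤ ε) (ha : a ≤ finrank (ZMod 2) E) (hδ0 : 0 ≤ δ) (hδ : (2 ^ a)⁻¹ + ε ≤ δ ^ 2)
    (hk : ∀ x, finrank (ZMod 2) (P.RedBot x) ≤ k) [DecidablePred P.Accepts] :
    |∑ x, if P.Accepts x then sg (f x) else 0| ≤ P.size * (Fintype.card E * δ) := by
  classical
  have : FiniteDimensional (ZMod 2) E := Module.Finite.of_finite
  let _ := P.fin
  set r := finrank (ZMod 2) E - a with hr
  have hsplit : ∀ x, (if P.Accepts x then sg (f x) else 0) =
      ∑ v, if P.CutB r x v then (if P.Accepts x then sg (f x) else 0) else 0 := by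
    intro x
    obtain ⟨v, hv⟩ := P.exists_cutB r x
    rw [Finset.sum_eq_single v]
    · rw [if_pos hv]
    · intro w _ hw
      rw [if_neg fun h => hw (P.cutB_unique h hv)]
    · intro h
      exact absurd (Finset.mem_univ v) h
  rw [Finset.sum_congr rfl fun x _ => hsplit x, Finset.sum_comm]
  refine (Finset.abs_sum_le_sum_abs _ _).trans ?_
  have hterm : ∀ v : P.V, |∑ x, if P.CutB r x v then (if P.Accepts x then sg (f x) else 0) else 0|
      ≤ Fintype.card E * δ := by
    intro v
    have hnn : (0 : ℝ) ≤ Fintype.card E * δ := mul_nonneg (Nat.cast_nonneg _) hδ0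
    by_cases hv : finrank (ZMod 2) (P.Post v) ≤ r
    · have h1 : ∀ x, (if P.CutB r x v then (if P.Accepts x then sg (f x) else 0) else 0) =
          if (∃ t : ℕ, P.leaf ((P.step x)^[t] v) = some true) then
            (if P.CutB r x v ∧ finrank (ZMod 2) (P.Bef r x) ≤ a + k then sg (f x) else 0)
          else 0 := by
        intro x
        by_cases h2 : P.CutB r x v
        · have h3 := P.accepts_iff (P.cutB_visits h2)
          have h4 : P.CutB r x v ∧ finrank (ZMod 2) (P.Bef r x) ≤ a + k :=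
            ⟨h2, P.bef_le ha (hk x) h2⟩
          rw [if_pos h2, if_pos h4]
          by_cases h5 : P.Accepts x
          · rw [if_pos h5, if_pos (h3.1 h5)]
          · rw [if_neg h5, if_neg fun h6 => h5 (h3.2 h6)]
        · have h4 : ¬ (P.CutB r x v ∧ finrank (ZMod 2) (P.Bef r x) ≤ a + k) := fun h5 => h2 h5.1
          rw [if_neg h2, if_neg h4, ite_self]
      rw [Finset.sum_congr rfl fun x _ => h1 x]
      have hacc : ∀ x y, y ∈ cell (P.Post v) x →
          ((∃ t : ℕ, P.leaf ((P.step y)^[t] v) = some true) ↔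
            ∃ t : ℕ, P.leaf ((P.step x)^[t] v) = some true) := by
        intro x y h
        have h3 : y ∈ cell (P.Tst v x) x := by
          rw [mem_cell]
          exact fun l hl => mem_cell.1 h l (P.tst_le_post v x hl)
        simp only [P.iter_congr h3]
      have h2 := core (c := a + k) (T := P.Bef r)
        (P := fun x => P.CutB r x v ∧ finrank (ZMod 2) (P.Bef r x) ≤ a + k) hf hε
        (fun x y h => P.bef_congr h) (fun x y h => by rw [P.cutB_congr h, P.bef_congr h])
        (fun x h => h.2) (P.Post v)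
        (fun x => ∃ t : ℕ, P.leaf ((P.step x)^[t] v) = some true) hacc
      have h3 : ((cell (P.Post v) 0).card : ℝ)⁻¹ ≤ (2 ^ a)⁻¹ := by
        have h4 : ((cell (P.Post v) (0 : E)).card : ℝ) * 2 ^ finrank (ZMod 2) (P.Post v) =
            2 ^ finrank (ZMod 2) E := by exact_mod_cast card_cell (P.Post v) 0
        apply inv_anti₀ (by positivity)
        have h5 : (2 : ℝ) ^ a * 2 ^ finrank (ZMod 2) (P.Post v) ≤ 2 ^ finrank (ZMod 2) E := by
          rw [← pow_add]
          exact pow_le_pow_right₀ (by norm_num) (by omega)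
        rw [← h4] at h5
        exact le_of_mul_le_mul_right h5 (by positivity)
      apply abs_le_of_sq_le_sq _ hnn
      refine h2.trans ?_
      rw [mul_pow]
      apply mul_le_mul_of_nonneg_left _ (by positivity)
      linarith
    · have h1 : ∀ x, ¬ P.CutB r x v := by
        rintro x ⟨t, -, -, h⟩
        exact hv h
      rw [Finset.sum_eq_zero fun x _ => by rw [if_neg (h1 x)], abs_zero]
      exact hnn
  refine (Finset.sum_le_sum fun v _ => hterm v).trans (le_of_eq ?_)
  rw [Finset.sum_const, nsmul_eq_mul, Finset.card_univ]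
  rfl

/-- **The correlation bound.** -/
theorem corr {f : E → ZMod 2} {a k : ℕ} {ε δ : ℝ} (hf : DirExt f (2 * (a + k)) ε)
    (hε : 0 ≤ ε) (ha : a ≤ finrank (ZMod 2) E) (hδ0 : 0 ≤ δ) (hδ : (2 ^ a)⁻¹ + ε ≤ δ ^ 2)
    (hk : P.Near k) [DecidablePred P.Accepts] :
    |∑ x, if P.Accepts x then sg (f x) else 0| ≤ P.size * (Fintype.card E * δ) := by
  rcases hk with hk | hk
  · exact P.corr_top hf hε ha hδ0 hδ hk
  · exact P.corr_bot hf hε ha hδ0 hδ hk

end LBP

end Pool.Agent.WRA
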