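import Pool.Agent.WRL.PairG

set_option autoImplicit false

/-!
# The correlation of a function with small directional sums and a union of cells

`A` is a union of cosets of `K = W^⊥`; `P` is a union of cells of small codimension; the sum of the
signs of `f` over their intersection is small, if the sums of `(-1) ^ (f x + f (x + u))` over all
affine subspaces of small codimension are small for every direction `u ≠ 0`.
-/

namespace Pool.Agent.WRA

open Module Finset
open Pool.Agent.WRL

variable {E : Type} [AddCommGroup E] [Module (ZMod 2) E] [Fintype E]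

/-- `f` is a directional affine extractor for the codimension `c` with the error `ε`: the sums of
the signs of `f x + f (x + u)` over the affine subspaces of codimension at most `c` are small, for
every direction `u ≠ 0`. -/
def DirExt (f : E → ZMod 2) (c : ℕ) (ε : ℝ) : Prop :=
  ∀ T : Submodule (ZMod 2) (Dual (ZMod 2) E), finrank (ZMod 2) T ≤ c → ∀ u : E, u ≠ 0 → ∀ y : E,
    |∑ x ∈ cell T y, sg (f x + f (x + u))| ≤ ε * (cell T y).card

lemma card_cell_pos (T : Submodule (ZMod 2) (Dual (ZMod 2) E)) (x : E) :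
    (0 : ℝ) < (cell T x).card := by
  exact_mod_cast card_pos.2 ⟨x, mem_cell_self _ _⟩

/-- Averages over the cells of a partition. -/
lemma sum_part (T : E → Submodule (ZMod 2) (Dual (ZMod 2) E))
    (hT : ∀ x y, y ∈ cell (T x) x → T y = T x) (G : E → ℝ) :
    ∑ y, G y = ∑ y, ((cell (T y) y).card : ℝ)⁻¹ * ∑ x ∈ cell (T y) y, G x := by
  classical
  have hsymm : ∀ x y, x ∈ cell (T y) y ↔ y ∈ cell (T x) x := by
    intro x y
    constructor
    · intro h
      rw [hT y x h]
      exact mem_cell_comm.1 h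
    · intro h
      rw [hT x y h]
      exact mem_cell_comm.1 h
  have h1 : ∀ y, ((cell (T y) y).card : ℝ)⁻¹ * ∑ x ∈ cell (T y) y, G x =
      ∑ x, if x ∈ cell (T y) y then ((cell (T y) y).card : ℝ)⁻¹ * G x else 0 := by
    intro y
    rw [mul_sum, ← sum_filter]
    congr 1
    ext x
    simp
  rw [sum_congr rfl fun y _ => h1 y, sum_comm]
  refine sum_congr rfl fun x _ => ?_
  have h2 : ∀ y, (if x ∈ cell (T y) y then ((cell (T y) y).card : ℝ)⁻¹ * G x else 0) =
      if y ∈ cell (T x) x then ((cell (T x) x).card : ℝ)⁻¹ * G x else 0 := by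
    intro y
    by_cases h : x ∈ cell (T y) y
    · have h3 := (hsymm x y).1 h
      have h4 : cell (T x) x = cell (T y) y := by
        rw [hT y x h, cell_eq h]
      rw [if_pos h, if_pos h3, h4]
    · rw [if_neg h, if_neg fun h3 => h ((hsymm x y).2 h3)]
  rw [sum_congr rfl fun y _ => h2 y, ← sum_filter, sum_const, nsmul_eq_mul]
  have h3 : (univ.filter fun y => y ∈ cell (T x) x) = cell (T x) x := by
    ext y
    simp
  rw [h3, ← mul_assoc, mul_inv_cancel₀ (card_cell_pos _ _).ne', one_mul]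

lemma mem_cell_zero {W : Submodule (ZMod 2) (Dual (ZMod 2) E)} {x u : E} :
    x + u ∈ cell W x ↔ u ∈ cell W 0 := by
  rw [mem_cell, mem_cell]
  constructor
  · intro h t ht
    have := h t ht
    rw [map_add, add_eq_left] at this
    rw [this, map_zero]
  · intro h t ht
    rw [map_add, h t ht, map_zero, add_zero]

lemma sum_cell (W : Submodule (ZMod 2) (Dual (ZMod 2) E)) (x : E) (G : E → ℝ) :
    ∑ y ∈ cell W x, G y = ∑ u ∈ cell W 0, G (x + u) := by
  symm
  refine sum_bij (fun u _ => x + u) (fun u hu => mem_cell_zero.2 hu) ?_ ?_ ?_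
  · intro u _ v _ h
    exact add_left_cancel h
  · intro y hy
    refine ⟨y - x, ?_, by abel⟩
    rw [← mem_cell_zero (x := x), add_sub_cancel]
    exact hy
  · intro u _
    rfl

lemma card_cell_eq (W : Submodule (ZMod 2) (Dual (ZMod 2) E)) (x : E) :
    ((cell W x).card : ℝ) = (cell W 0).card := by
  have h := sum_cell W x fun _ => (1 : ℝ)
  simpa using h

section

variable {f : E → ZMod 2} {c : ℕ} {ε : ℝ} {T : E → Submodule (ZMod 2) (Dual (ZMod 2) E)}
  {P : E → Prop} [DecidablePred P]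

/-- The sum in a fixed direction. -/
lemma dir_sum (hf : DirExt f (2 * c) ε) (hε : 0 ≤ ε)
    (hT : ∀ x y, y ∈ cell (T x) x → T y = T x) (hP : ∀ x y, y ∈ cell (T x) x → (P y ↔ P x))
    (hc : ∀ x, P x → finrank (ZMod 2) (T x) ≤ c) {u : E} (hu : u ≠ 0) :
    |∑ y, (if P y then sg (f y) else 0) * (if P (y + u) then sg (f (y + u)) else 0)| ≤
      ε * Fintype.card E := by
  classical
  have : FiniteDimensional (ZMod 2) E := Module.Finite.of_finite
  have hsh : ∀ x y, y ∈ cell (T x ⊔ T (x + u)) x → y ∈ cell (T x) x ∧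
      y + u ∈ cell (T (x + u)) (x + u) := by
    intro x y h
    rw [mem_cell] at h
    constructor
    · rw [mem_cell]
      exact fun t ht => h t (Submodule.mem_sup_left ht)
    · rw [mem_cell]
      intro t ht
      rw [map_add, map_add, h t (Submodule.mem_sup_right ht)]
  rw [sum_part (fun y => T y ⊔ T (y + u)) (fun x y h => by
    obtain ⟨h1, h2⟩ := hsh x y h
    rw [hT x y h1, hT _ _ h2])]
  refine (abs_sum_le_sum_abs _ _).trans ?_
  have h1 : ∀ y : E, |((cell (T y ⊔ T (y + u)) y).card : ℝ)⁻¹ *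
      ∑ x ∈ cell (T y ⊔ T (y + u)) y,
        (if P x then sg (f x) else 0) * (if P (x + u) then sg (f (x + u)) else 0)| ≤ ε := by
    intro y
    have hpos := card_cell_pos (T y ⊔ T (y + u)) y
    by_cases h2 : P y ∧ P (y + u)
    · have h3 : ∑ x ∈ cell (T y ⊔ T (y + u)) y,
          (if P x then sg (f x) else 0) * (if P (x + u) then sg (f (x + u)) else 0) =
          ∑ x ∈ cell (T y ⊔ T (y + u)) y, sg (f x + f (x + u)) := by
        refine sum_congr rfl fun x hx => ?_
        obtain ⟨h4, h5⟩ := hsh y x hx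
        rw [if_pos ((hP y x h4).2 h2.1), if_pos ((hP _ _ h5).2 h2.2), sg_add]
      rw [h3, abs_mul, abs_of_pos (inv_pos.2 hpos)]
      have h4 := hf (T y ⊔ T (y + u)) (by
        have h5 := Submodule.finrank_add_le_finrank_add_finrank (T y) (T (y + u))
        have h6 := hc y h2.1
        have h7 := hc _ h2.2
        omega) u hu y
      rw [inv_mul_le_iff₀ hpos, mul_comm]
      exact h4
    · have h3 : ∑ x ∈ cell (T y ⊔ T (y + u)) y,
          (if P x then sg (f x) else 0) * (if P (x + u) then sg (f (x + u)) else 0) = 0 := by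
        refine sum_eq_zero fun x hx => ?_
        obtain ⟨h4, h5⟩ := hsh y x hx
        by_cases h6 : P y
        · have h7 : ¬ P (x + u) := fun h8 => h2 ⟨h6, (hP _ _ h5).1 h8⟩
          rw [if_neg h7, mul_zero]
        · have h7 : ¬ P x := fun h8 => h6 ((hP y x h4).1 h8)
          rw [if_neg h7, zero_mul]
      rw [h3, mul_zero, abs_zero]
      exact hε
  refine (sum_le_sum fun y _ => h1 y).trans (le_of_eq ?_)
  rw [sum_const, nsmul_eq_mul, card_univ, mul_comm]

/-- **The correlation bound.** -/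
theorem core (hf : DirExt f (2 * c) ε) (hε : 0 ≤ ε)
    (hT : ∀ x y, y ∈ cell (T x) x → T y = T x) (hP : ∀ x y, y ∈ cell (T x) x → (P y ↔ P x))
    (hc : ∀ x, P x → finrank (ZMod 2) (T x) ≤ c)
    (W : Submodule (ZMod 2) (Dual (ZMod 2) E)) (A : E → Prop) [DecidablePred A]
    (hA : ∀ x y, y ∈ cell W x → (A y ↔ A x)) :
    (∑ x, if A x then (if P x then sg (f x) else 0) else 0) ^ 2 ≤
      (Fintype.card E : ℝ) ^ 2 * (((cell W 0).card : ℝ)⁻¹ + ε) := by
  classical
  set h : E → ℝ := fun x => if P x then sg (f x) else 0 with hh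
  obtain ⟨κ, hκ⟩ : ∃ κ : ℝ, κ = ((cell W 0).card : ℝ) := ⟨_, rfl⟩
  have hκ0 : 0 < κ := hκ ▸ card_cell_pos W 0
  rw [← hκ]
  obtain ⟨n, hn⟩ : ∃ n : ℝ, n = (Fintype.card E : ℝ) := ⟨_, rfl⟩
  rw [← hn]
  have hsq : ∀ x, h x * h x ≤ 1 := by
    intro x
    rw [hh]
    simp only
    split_ifs
    · have h1 := sg_le_one (f x)
      have h2 := neg_one_le_sg (f x)
      nlinarith
    · norm_num
  have hA1 : ∀ x, (if A x then h x else 0) = (if A x then (1 : ℝ) else 0) * h x := by
    intro x
    split_ifs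
    · rw [one_mul]
    · rw [zero_mul]
  -- averages over the cells of `W`
  have h1 : (∑ x, if A x then h x else 0) =
      κ⁻¹ * ∑ x, (if A x then (1 : ℝ) else 0) * ∑ y ∈ cell W x, h y := by
    rw [sum_part (fun _ => W) (fun _ _ _ => rfl) fun x => if A x then h x else 0, mul_sum]
    refine sum_congr rfl fun x _ => ?_
    rw [card_cell_eq W x, ← hκ]
    congr 1
    rw [mul_sum]
    refine sum_congr rfl fun y hy => ?_
    rw [hA1 y]
    congr 1
    by_cases h2 : A x
    · rw [if_pos h2, if_pos ((hA x y hy).2 h2)]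
    · rw [if_neg h2, if_neg fun h3 => h2 ((hA x y hy).1 h3)]
  -- the second moment
  have h2 : ∑ x, (∑ y ∈ cell W x, h y) ^ 2 = κ * ∑ u ∈ cell W 0, ∑ y, h y * h (y + u) := by
    have e1 : ∀ x, (∑ y ∈ cell W x, h y) ^ 2 = ∑ y ∈ cell W x, h y * ∑ z ∈ cell W x, h z := by
      intro x
      rw [sq, sum_mul]
    have e2 : ∀ x, ((cell W x).card : ℝ)⁻¹ * ∑ y ∈ cell W x, (κ * (h y * ∑ z ∈ cell W y, h z)) =
        (∑ y ∈ cell W x, h y) ^ 2 := by
      intro x
      rw [e1 x, ← mul_sum, card_cell_eq W x, ← hκ, ← mul_assoc, inv_mul_cancel₀ hκ0.ne', one_mul]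
      refine sum_congr rfl fun y hy => ?_
      rw [cell_eq hy]
    have e3 := sum_part (fun _ => W) (fun _ _ _ => rfl) fun y => κ * (h y * ∑ z ∈ cell W y, h z)
    simp only at e3
    rw [sum_congr rfl fun x _ => e2 x] at e3
    rw [← e3, ← mul_sum, sum_comm]
    congr 1
    refine sum_congr rfl fun y _ => ?_
    rw [sum_cell W y, mul_sum]
  have h3 : ∑ u ∈ cell W 0, ∑ y, h y * h (y + u) ≤ n + κ * (ε * n) := by
    have hn0 : (0 : ℝ) ≤ n := hn ▸ Nat.cast_nonneg _
    have e1 : ∀ u ∈ cell W 0, ∑ y, h y * h (y + u) ≤ (if u = 0 then n else 0) + ε * n := by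
      intro u _
      split_ifs with hu
      · have e2 : ∑ y, h y * h (y + u) ≤ n := by
          rw [hu]
          simp only [add_zero]
          refine (sum_le_sum fun y _ => hsq y).trans (le_of_eq ?_)
          rw [sum_const, nsmul_eq_mul, mul_one, card_univ, hn]
        have : 0 ≤ ε * n := mul_nonneg hε hn0
        linarith
      · rw [zero_add, hn]
        exact (le_abs_self _).trans (dir_sum hf hε hT hP hc hu)
    refine (sum_le_sum e1).trans (le_of_eq ?_)
    rw [sum_add_distrib, sum_ite_eq', if_pos (mem_cell_self W 0), sum_const, nsmul_eq_mul, hκ]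
  -- Cauchy-Schwarz
  have h4 := sum_mul_sq_le_sq_mul_sq univ (fun x => if A x then (1 : ℝ) else 0)
    fun x => ∑ y ∈ cell W x, h y
  have h5 : ∑ x, (if A x then (1 : ℝ) else 0) ^ 2 ≤ n := by
    have e1 : ∀ x : E, (if A x then (1 : ℝ) else 0) ^ 2 ≤ 1 := by
      intro x
      split_ifs <;> norm_num
    refine (sum_le_sum fun x _ => e1 x).trans (le_of_eq ?_)
    rw [sum_const, nsmul_eq_mul, mul_one, card_univ, hn]
  have hn0 : (0 : ℝ) ≤ n := hn ▸ Nat.cast_nonneg _
  have h6 : (∑ x, (if A x then (1 : ℝ) else 0) * ∑ y ∈ cell W x, h y) ^ 2 ≤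
      n * (κ * (n + κ * (ε * n))) := by
    refine h4.trans ?_
    rw [h2]
    have e1 : 0 ≤ κ * ∑ u ∈ cell W 0, ∑ y, h y * h (y + u) := by
      rw [← h2]
      exact sum_nonneg fun x _ => sq_nonneg _
    exact mul_le_mul h5 (mul_le_mul_of_nonneg_left h3 hκ0.le) e1 hn0
  rw [h1, mul_pow]
  have h7 : (κ⁻¹) ^ 2 * (∑ x, (if A x then (1 : ℝ) else 0) * ∑ y ∈ cell W x, h y) ^ 2 ≤
      (κ⁻¹) ^ 2 * (n * (κ * (n + κ * (ε * n)))) := mul_le_mul_of_nonneg_left h6 (by positivity)
  refine h7.trans (le_of_eq ?_)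
  field_simp

end

end Pool.Agent.WRA
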