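import Mathlib

set_option autoImplicit false

/-!
# Deterministic linear branching programs
-/

namespace Pool.Agent.WRA

open Module

/-- A deterministic linear branching program whose inputs are the vectors of the space `E` over the
field with two elements. A node `u` is a leaf with an answer (`leaf u = some b`) or it is an inner
node (`leaf u = none`), where the linear form `form u` is tested; the next node is `next u b` if the
value is `b`. The height decreases, so there are no cycles. -/
structure LBP (E : Type) [AddCommGroup E] [Module (ZMod 2) E] where
  V : Type
  fin : Fintype V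
  start : V
  leaf : V → Option Bool
  form : V → Dual (ZMod 2) E
  next : V → ZMod 2 → V
  height : V → ℕ
  dec : ∀ u b, leaf u = none → height (next u b) < height u

variable {E : Type} [AddCommGroup E] [Module (ZMod 2) E]

namespace LBP

variable (P : LBP E)

/-- The number of nodes. -/
def size : ℕ := @Fintype.card P.V P.fin

/-- There is a path from `u` to `w`. -/
def Reach : P.V → P.V → Prop :=
  Relation.ReflTransGen fun u w => P.leaf u = none ∧ ∃ b, w = P.next u b

/-- The span of the forms tested on the paths from the start node to `v`, without `v`. -/
def Pre (v : P.V) : Submodule (ZMod 2) (Dual (ZMod 2) E) :=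
  Submodule.span (ZMod 2) {l | ∃ u b, P.Reach P.start u ∧ P.leaf u = none ∧
    P.Reach (P.next u b) v ∧ l = P.form u}

/-- The span of the forms tested on the paths that start at `v`. -/
def Post (v : P.V) : Submodule (ZMod 2) (Dual (ZMod 2) E) :=
  Submodule.span (ZMod 2) {l | ∃ u, P.Reach v u ∧ P.leaf u = none ∧ l = P.form u}

/-- The node after `u` on the input `x`. -/
def step (x : E) (u : P.V) : P.V := if P.leaf u = none then P.next u (P.form u x) else u

/-- The node `u` is on the computation path of `x`. -/
def Visits (x : E) (u : P.V) : Prop := ∃ t : ℕ, (P.step x)^[t] P.start = u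

/-- The input `x` is accepted. -/
def Accepts (x : E) : Prop := ∃ u, P.Visits x u ∧ P.leaf u = some true

/-- The span of the redundant forms of the computation path of `x`: the form tested at `u` is
redundant if it is in `Pre u`. -/
def RedTop (x : E) : Submodule (ZMod 2) (Dual (ZMod 2) E) :=
  Submodule.span (ZMod 2) {l | ∃ u, P.Visits x u ∧ P.leaf u = none ∧ P.form u ∈ P.Pre u ∧
    l = P.form u}

/-- The bottom version of `RedTop`: the form tested at `u` is redundant if it is in `Post w` for the
node `w` after `u`. -/
def RedBot (x : E) : Submodule (ZMod 2) (Dual (ZMod 2) E) :=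
  Submodule.span (ZMod 2) {l | ∃ u, P.Visits x u ∧ P.leaf u = none ∧
    P.form u ∈ P.Post (P.step x u) ∧ l = P.form u}

/-- Weakly read-once: the form tested at `v` is not in `Pre v`. -/
def ReadOnce : Prop := ∀ v, P.Reach P.start v → P.leaf v = none → P.form v ∉ P.Pre v

/-- Nearly weakly read-once: the redundant forms of every computation path span a space of dimension
at most `k` (all in the top version or all in the bottom version). -/
def Near (k : ℕ) : Prop :=
  (∀ x, finrank (ZMod 2) (P.RedTop x) ≤ k) ∨ ∀ x, finrank (ZMod 2) (P.RedBot x) ≤ k

end LBP

end Pool.Agent.WRA
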