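import Pool.Agent.WRA.Tri

set_option autoImplicit false

/-!
# The trace of the product of three elements is a directional affine extractor
-/

namespace Pool.Agent.WRA

open Module
open Pool.Agent.WRL

lemma sum_cell_coann {E : Type} [AddCommGroup E] [Module (ZMod 2) E] [Fintype E]
    (T : Submodule (ZMod 2) (Dual (ZMod 2) E)) [Fintype T.dualCoannihilator] (y : E)
    (G : E → ℝ) : ∑ x ∈ cell T y, G x = ∑ v : T.dualCoannihilator, G ((v : E) + y) := by
  symm
  refine Finset.sum_bij (fun v _ => (v : E) + y) ?_ ?_ ?_ ?_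
  · intro v _
    rw [mem_cell]
    intro t ht
    rw [map_add, (Submodule.mem_dualCoannihilator _).1 v.2 t ht, zero_add]
  · intro v _ w _ h
    exact Subtype.ext (add_right_cancel h)
  · intro x hx
    refine ⟨⟨x - y, ?_⟩, Finset.mem_univ _, ?_⟩
    · rw [Submodule.mem_dualCoannihilator]
      intro t ht
      rw [map_sub, mem_cell.1 hx t ht, sub_self]
    · simp
  · intro v _
    rfl

/-- A function whose derivatives are quadratic functions with small radicals is a directional affine
extractor. -/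
theorem dirExt_of_radical {E : Type} [AddCommGroup E] [Module (ZMod 2) E] [Fintype E]
    {f : E → ZMod 2} {B : E → E →ₗ[ZMod 2] Dual (ZMod 2) E} {n : ℕ}
    (hdim : finrank (ZMod 2) E = 3 * n)
    (hQ : ∀ u, IsQ (fun x => f x + f (x + u)) (B u))
    (hB : ∀ u, u ≠ 0 → finrank (ZMod 2) (LinearMap.ker (B u)) ≤ n) (c : ℕ) :
    DirExt f c (2 ^ c / 2 ^ n) := by
  classical
  have : FiniteDimensional (ZMod 2) E := Module.Finite.of_finite
  intro T hT u hu y
  set V := T.dualCoannihilator with hV
  have hVdim : finrank (ZMod 2) T + finrank (ZMod 2) V = finrank (ZMod 2) E :=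
    Subspace.finrank_add_finrank_dualCoannihilator_eq T
  rw [sum_cell_coann T y fun x => sg (f x + f (x + u))]
  have h1 : IsQ (fun v : V => f (V.subtype v + y) + f (V.subtype v + y + u))
      (V.subtype.dualMap ∘ₗ B u ∘ₗ V.subtype) := (hQ u).comp' V.subtype y
  have h2 := bias h1
  have h3 := rank_one' V.subtype (B u)
  rw [Submodule.ker_subtype, finrank_bot, mul_zero, zero_add] at h3
  have h4 := hB u hu
  have hcardV : (Fintype.card V : ℝ) = 2 ^ finrank (ZMod 2) V := by
    rw [Module.card_eq_pow_finrank (K := ZMod 2), ZMod.card]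
    push_cast
    rfl
  rw [hcardV, ← pow_add] at h2
  have h5 : (2 : ℝ) ^ (finrank (ZMod 2) V +
      finrank (ZMod 2) (LinearMap.ker (V.subtype.dualMap ∘ₗ B u ∘ₗ V.subtype))) ≤
        (2 ^ (2 * n)) ^ 2 := by
    rw [← pow_mul]
    exact pow_le_pow_right₀ (by norm_num) (by omega)
  have h6 := abs_le_of_sq_le_sq (h2.trans h5) (by positivity)
  refine h6.trans ?_
  have h7 : ((cell T y).card : ℝ) * 2 ^ finrank (ZMod 2) T = 2 ^ (3 * n) := by
    rw [← hdim]
    exact_mod_cast card_cell T y
  have h8 : (2 : ℝ) ^ finrank (ZMod 2) T ≤ 2 ^ c := pow_le_pow_right₀ (by norm_num) hT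
  have h9 : (0 : ℝ) ≤ (cell T y).card := Nat.cast_nonneg _
  rw [div_mul_eq_mul_div, le_div_iff₀ (by positivity), ← pow_add]
  have h10 : (2 : ℝ) ^ (2 * n + n) = (cell T y).card * 2 ^ finrank (ZMod 2) T := by
    rw [h7]
    congr 1
    ring
  rw [h10, mul_comm]
  exact mul_le_mul_of_nonneg_right h8 h9

/-- The extractor property of `tri`. -/
theorem dirExt_tri {n : ℕ} (hn : n ≠ 0) (α : Basis (Fin n) (ZMod 2) (GaloisField 2 n)) (c : ℕ) :
    DirExt (tri (n := n) α) c (2 ^ c / 2 ^ n) := by
  refine dirExt_of_radical (B := fun u => polar α u) ?_ (fun u => isQ_deriv _ u)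
    (fun u hu => finrank_polar hn α hu) c
  rw [Module.finrank_pi, Fintype.card_prod, Fintype.card_fin, Fintype.card_fin]

end Pool.Agent.WRA
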