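import Pool.Agent.WRA.UpPol
import Pool.Agent.WRL.MainK

set_option autoImplicit false

/-!
# The lower bound for nondeterministic programs for the function with a polarity bit
-/

namespace Pool.Agent.WRA

open Module Finset
open Pool.Agent.WRL

namespace LP

section Pull

variable {E F : Type} [AddCommGroup E] [Module (ZMod 2) E] [AddCommGroup F] [Module (ZMod 2) F]
  (r : F →ₗ[ZMod 2] E)

/-- The pull back of a polar form. -/
def pull (B : E →ₗ[ZMod 2] Dual (ZMod 2) E) : F →ₗ[ZMod 2] Dual (ZMod 2) F :=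
  r.dualMap ∘ₗ B ∘ₗ r

lemma pull_apply (B : E →ₗ[ZMod 2] Dual (ZMod 2) E) (u x : F) : pull r B u x = B (r u) (r x) := rfl

lemma isQ_pull {q : E → ZMod 2} {B : E →ₗ[ZMod 2] Dual (ZMod 2) E} (h : IsQ q B) :
    IsQ (fun x => q (r x)) (pull r B) := by
  intro u x
  show q (r (u + x)) = q (r u) + q (r x) + q (r 0) + B (r u) (r x)
  rw [map_add, h, map_zero]

lemma Bm_pull {m : ℕ} (B : Fin m → E →ₗ[ZMod 2] Dual (ZMod 2) E) (μ : Fin m → ZMod 2) :
    Bm (fun j => pull r (B j)) μ = pull r (Bm B μ) := by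
  refine LinearMap.ext fun u => LinearMap.ext fun x => ?_
  rw [pull_apply]
  unfold Bm
  simp only [LinearMap.sum_apply, LinearMap.smul_apply, pull_apply]

lemma finrank_ker_pull [Finite E] [Finite F] (hr : Function.Surjective r)
    (B : E →ₗ[ZMod 2] Dual (ZMod 2) E) :
    finrank (ZMod 2) (LinearMap.ker (pull r B)) + finrank (ZMod 2) E =
      finrank (ZMod 2) (LinearMap.ker B) + finrank (ZMod 2) F := by
  have h1 : LinearMap.ker (pull r B) = LinearMap.ker ((LinearMap.ker B).mkQ ∘ₗ r) := by
    ext u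
    rw [LinearMap.mem_ker, LinearMap.mem_ker, LinearMap.comp_apply, Submodule.mkQ_apply,
      Submodule.Quotient.mk_eq_zero, LinearMap.mem_ker]
    constructor
    · intro h
      refine LinearMap.ext fun x => ?_
      obtain ⟨x', rfl⟩ := hr x
      have := congrArg (fun f : Dual (ZMod 2) F => f x') h
      exact this
    · intro h
      refine LinearMap.ext fun x => ?_
      rw [pull_apply, h]
      rfl
  have h2 := LinearMap.finrank_range_add_finrank_ker ((LinearMap.ker B).mkQ ∘ₗ r)
  have h3 : LinearMap.range ((LinearMap.ker B).mkQ ∘ₗ r) = ⊤ := by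
    rw [LinearMap.range_eq_top]
    exact (Submodule.mkQ_surjective _).comp hr
  rw [h3, finrank_top] at h2
  have h4 := Submodule.finrank_quotient_add_finrank (LinearMap.ker B)
  rw [h1]
  omega

end Pull

variable {t m : ℕ}

/-- The restriction to the two polynomials. -/
noncomputable def rs (ι : Type) : (Option ι → ZMod 2) →ₗ[ZMod 2] (ι → ZMod 2) :=
  LinearMap.funLeft (ZMod 2) (ZMod 2) some

lemma rs_apply {ι : Type} (z : Option ι → ZMod 2) (i : ι) : rs ι z i = z (some i) := rfl

lemma rs_surj (ι : Type) : Function.Surjective (rs ι) := by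
  intro x
  exact ⟨fun o => o.elim 0 x, rfl⟩

lemma mem_frozen {ι : Type} (z e : Option ι → ZMod 2) :
    (∀ φ ∈ Submodule.span (ZMod 2) {(LinearMap.proj none : Dual (ZMod 2) (Option ι → ZMod 2))},
      φ z = φ e) ↔ z none = e none := by
  constructor
  · intro h
    exact h _ (Submodule.subset_span rfl)
  · intro h φ hφ
    obtain ⟨c, rfl⟩ := Submodule.mem_span_singleton.mp hφ
    simp only [LinearMap.smul_apply, LinearMap.proj_apply, h]

theorem top (k : ℕ) (hm : 0 < m) (ht : 7 * m + 3 * k + 4 ≤ t)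
    (P : Prog (Option (Fin (t + m) ⊕ Fin (t + m)) → ZMod 2)) (a : ZMod 2)
    (hacc : ∀ z, P.Acc z → z none = a → CoeffZero t m fun i => z (some i)) :
    2 ^ m * Nat.card {z // P.AccTop k z ∧ z none = a} ≤
      6 * (∑ i ∈ Finset.range (k + 2), (2 * (t + m) + 1).choose i) * P.size *
        (2 * Nat.card {z // CoeffZero t m z}) := by
  classical
  have hdim : finrank (ZMod 2) (Option (Fin (t + m) ⊕ Fin (t + m)) → ZMod 2) = 2 * (t + m) + 1 := by
    rw [Module.finrank_pi, Fintype.card_option, Fintype.card_sum, Fintype.card_fin]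
    omega
  have hdim' : finrank (ZMod 2) (Fin (t + m) ⊕ Fin (t + m) → ZMod 2) = 2 * (t + m) := by
    rw [Module.finrank_pi, Fintype.card_sum, Fintype.card_fin]
    omega
  have h1 := lower_topK (m := m)
    (Q := fun j z => qn (n := t + m) (cn t j) (rs (Fin (t + m) ⊕ Fin (t + m)) z))
    (B := fun j => pull (rs _) (Bn (cn t j))) (fun j => isQ_pull _ (isQ_qn _)) (ρ := 2 * m + 1)
    (fun μ hμ => by
      rw [Bm_pull]
      have h2 := finrank_ker_pull (rs (Fin (t + m) ⊕ Fin (t + m))) (rs_surj _)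
        (Bm (fun j => Bn (n := t + m) (cn t j)) μ)
      have h3 := radicalN t μ hμ
      rw [hdim, hdim'] at h2
      omega)
    k 1 (Submodule.span (ZMod 2) {(LinearMap.proj none)}) (by
      refine (finrank_span_le_card _).trans ?_
      rw [Set.toFinset_singleton, Finset.card_singleton]) (Pi.single none a) (by rw [hdim]; omega) P
    (fun z hz h j => by
      rw [mem_frozen, Pi.single_eq_same] at h
      exact (coeffZero_iff _).1 (hacc z hz h) j)
  rw [hdim] at h1
  have e1 : Nat.card {z // P.AccTop k z ∧ z none = a} = (Finset.univ.filter fun z => P.AccTop k z ∧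
      ∀ φ ∈ Submodule.span (ZMod 2)
        {(LinearMap.proj none : Dual (ZMod 2) (Option (Fin (t + m) ⊕ Fin (t + m)) → ZMod 2))},
        φ z = φ (Pi.single none a)).card := by
    rw [Nat.card_eq_fintype_card, Fintype.card_subtype]
    congr 1
    ext z
    simp only [Finset.mem_filter, mem_frozen, Pi.single_eq_same]
  rw [← e1] at h1
  refine real_step h1 ?_
  have h2 := card_coeffZero t m (by omega) hm
  have h3 : (2 : ℝ) ^ (2 * (t + m) + 1) = 2 * 2 ^ (2 * (t + m)) := by ring
  rw [h3]
  push_cast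
  nlinarith

theorem bot (k : ℕ) (hm : 0 < m) (ht : 7 * m + 3 * k + 4 ≤ t)
    (P : Prog (Option (Fin (t + m) ⊕ Fin (t + m)) → ZMod 2)) (a : ZMod 2)
    (hacc : ∀ z, P.Acc z → z none = a → CoeffZero t m fun i => z (some i)) :
    2 ^ m * Nat.card {z // P.AccBot k z ∧ z none = a} ≤
      6 * (∑ i ∈ Finset.range (k + 2), (2 * (t + m) + 1).choose i) * P.size *
        (2 * Nat.card {z // CoeffZero t m z}) := by
  have h1 := top k hm ht P.rev a (fun z hz => hacc z (P.rev_acc.1 hz))
  have e1 : Nat.card {z // P.rev.AccTop k z ∧ z none = a} =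
      Nat.card {z // P.AccBot k z ∧ z none = a} :=
    Nat.card_congr (Equiv.subtypeEquivRight fun z => and_congr_left' P.rev_accTop)
  rw [e1] at h1
  exact h1

theorem both (k : ℕ) (hm : 0 < m) (ht : 7 * m + 3 * k + 4 ≤ t)
    (P : Prog (Option (Fin (t + m) ⊕ Fin (t + m)) → ZMod 2)) (a : ZMod 2)
    (hacc : ∀ z, z none = a → (P.Acc z ↔ CoeffZero t m fun i => z (some i)))
    (hk : ∀ z, P.Acc z → P.AccTop k z ∨ P.AccBot k z) :
    2 ^ m ≤ 24 * (∑ i ∈ Finset.range (k + 2), (2 * (t + m) + 1).choose i) * P.size := by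
  classical
  have h1 := top k hm ht P a fun z hz h => (hacc z h).1 hz
  have h2 := bot k hm ht P a fun z hz h => (hacc z h).1 hz
  have h3 : Nat.card {z // CoeffZero t m z} ≤ Nat.card {z // P.AccTop k z ∧ z none = a} +
      Nat.card {z // P.AccBot k z ∧ z none = a} := by
    have h4 : Nat.card {z // CoeffZero t m z} ≤
        Nat.card {z // (P.AccTop k z ∧ z none = a) ∨ (P.AccBot k z ∧ z none = a)} := by
      refine Nat.card_le_card_of_injective
        (fun x : {z // CoeffZero t m z} => ⟨fun o => o.elim a x.1, ?_⟩) ?_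
      · have h5 : P.Acc fun o => o.elim a x.1 := (hacc _ rfl).2 x.2
        rcases hk _ h5 with h | h
        · exact Or.inl ⟨h, rfl⟩
        · exact Or.inr ⟨h, rfl⟩
      · intro x y hxy
        have h5 : (fun o : Option (Fin (t + m) ⊕ Fin (t + m)) => o.elim a x.1) =
            fun o => o.elim a y.1 := congrArg Subtype.val hxy
        exact Subtype.ext (funext fun i => congrFun h5 (some i))
    refine h4.trans ?_
    simp only [Nat.card_eq_fintype_card]
    exact Fintype.card_subtype_or _ _
  have h6 : 0 < Nat.card {z // CoeffZero t m z} := by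
    have : Nonempty {z // CoeffZero t m z} := by
      refine ⟨⟨0, ?_⟩⟩
      rw [coeffZero_iff]
      intro j
      simp [qn]
    exact Nat.card_pos
  obtain ⟨S, hS⟩ : ∃ S, S = ∑ i ∈ Finset.range (k + 2), (2 * (t + m) + 1).choose i := ⟨_, rfl⟩
  rw [← hS] at h1 h2 ⊢
  have h7 : 2 ^ m * Nat.card {z // CoeffZero t m z} ≤
      24 * S * P.size * Nat.card {z // CoeffZero t m z} := by
    calc 2 ^ m * Nat.card {z // CoeffZero t m z}
        ≤ 2 ^ m * (Nat.card {z // P.AccTop k z ∧ z none = a} +
            Nat.card {z // P.AccBot k z ∧ z none = a}) := Nat.mul_le_mul_left _ h3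
      _ = 2 ^ m * Nat.card {z // P.AccTop k z ∧ z none = a} +
            2 ^ m * Nat.card {z // P.AccBot k z ∧ z none = a} := by ring
      _ ≤ 6 * S * P.size * (2 * Nat.card {z // CoeffZero t m z}) +
            6 * S * P.size * (2 * Nat.card {z // CoeffZero t m z}) := Nat.add_le_add h1 h2
      _ = _ := by ring
  exact Nat.le_of_mul_le_mul_right h7 h6

end LP

/-- **The lower bound.** -/
theorem pol_lower (t m k : ℕ) (hm : 0 < m) (ht : 7 * m + 3 * k + 4 ≤ t)
    (P : Prog (Option (Fin (t + m) ⊕ Fin (t + m)) → ZMod 2))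
    (hacc : (∀ z, P.Acc z ↔ PolZero t m z) ∨ ∀ z, P.Acc z ↔ ¬ PolZero t m z)
    (hk : ∀ z, P.Acc z → P.AccTop k z ∨ P.AccBot k z) :
    2 ^ m ≤ 24 * (∑ i ∈ Finset.range (k + 2), (2 * (t + m) + 1).choose i) * P.size := by
  rcases hacc with h | h
  · refine LP.both k hm ht P 1 (fun z hz => ?_) hk
    rw [h z]
    unfold PolZero
    rw [hz]
    simp
  · refine LP.both k hm ht P 0 (fun z hz => ?_) hk
    rw [h z]
    unfold PolZero
    rw [hz]
    simp

end Pool.Agent.WRA
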