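import Pool.Agent.WRA.Obl

set_option autoImplicit false

/-!
# The lower bounds for the function `tri`
-/

namespace Pool.Agent.WRA

open Module Finset
open Pool.Agent.WRL
open Pool.Agent.UM (InPP InParity InPSPACE InGap)

variable {n : ℕ}

/-- `tri` is hard. -/
theorem hard_tri (α : Basis (Fin n) (ZMod 2) (GaloisField 2 n)) {b k : ℕ}
    (h : 6 * b + 2 * k + 3 ≤ n) : Hard (tri (n := n) α) k ((2 : ℝ) ^ b)⁻¹ := by
  have hn : n ≠ 0 := by omega
  refine hard_of_dirExt (a := 2 * b + 1) (ε := 2 ^ (2 * (2 * b + 1 + k)) / 2 ^ n)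
    (dirExt_tri hn α _) (by positivity) ?_ (by positivity) ?_
  · rw [Module.finrank_pi, Fintype.card_prod, Fintype.card_fin, Fintype.card_fin]
    omega
  · have h1 : (2 : ℝ) ^ (2 * (2 * b + 1 + k)) / 2 ^ n ≤ (2 ^ (2 * b + 1))⁻¹ := by
      rw [div_le_iff₀ (by positivity), ← div_eq_inv_mul, le_div_iff₀ (by positivity), ← pow_add]
      exact pow_le_pow_right₀ (by norm_num) (by omega)
    have h2 : (((2 : ℝ) ^ b)⁻¹) ^ 2 = (2 ^ (2 * b + 1))⁻¹ + (2 ^ (2 * b + 1))⁻¹ := by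
      have h3 : (2 : ℝ) ^ (2 * b + 1) = 2 * (2 ^ b) ^ 2 := by ring
      rw [h3]
      field_simp
      norm_num
    rw [h2]
    linarith

lemma card_input : (Fintype.card (Fin 3 × Fin n → ZMod 2) : ℝ) = 2 ^ (3 * n) := by
  rw [Fintype.card_fun, ZMod.card, Fintype.card_prod, Fintype.card_fin, Fintype.card_fin]
  push_cast
  rfl

/-- Average-case hardness. -/
theorem tri_avg (α : Basis (Fin n) (ZMod 2) (GaloisField 2 n)) {b k : ℕ}
    (h : 6 * b + 2 * k + 3 ≤ n) (P : LBP (Fin 3 × Fin n → ZMod 2)) (hP : P.Near k) :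
    2 * 2 ^ b * Nat.card {z // P.Accepts z ↔ tri α z = 1} ≤
      (2 ^ b + 2 * P.size + 1) * 2 ^ (3 * n) := by
  have h1 := (hard_tri α h).agree P hP
  rw [card_input] at h1
  have hb : (0 : ℝ) < 2 ^ b := by positivity
  have h2 : (2 ^ b : ℝ) * (2 * (Nat.card {z // P.Accepts z ↔ tri α z = 1} : ℝ)) ≤
      2 ^ b * (2 ^ (3 * n) * (1 + (1 + 2 * P.size) * (2 ^ b)⁻¹)) :=
    mul_le_mul_of_nonneg_left h1 hb.le
  have h3 : (2 ^ b : ℝ) * (2 ^ (3 * n) * (1 + (1 + 2 * P.size) * (2 ^ b)⁻¹)) =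
      (2 ^ b + 2 * P.size + 1) * 2 ^ (3 * n) := by
    field_simp
    ring
  rw [h3] at h2
  have h4 : ((2 * 2 ^ b * Nat.card {z // P.Accepts z ↔ tri α z = 1} : ℕ) : ℝ) ≤
      (((2 ^ b + 2 * P.size + 1) * 2 ^ (3 * n) : ℕ) : ℝ) := by
    push_cast
    linarith
  exact_mod_cast h4

/-- PP mode and randomised mode with a gap. -/
theorem tri_pp (α : Basis (Fin n) (ZMod 2) (GaloisField 2 n)) {b k s W : ℕ}
    (h : 6 * b + 2 * k + 3 ≤ n)
    (hL : InPP (ByLBP (Fin 3 × Fin n) k s) W (fun z => tri α z = 1) ∨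
      InGap (ByLBP (Fin 3 × Fin n) k s) W (fun z => tri α z = 1)) : 2 ^ b ≤ 7 * s * 2 ^ W := by
  classical
  have hb : (0 : ℝ) < 2 ^ b := by positivity
  have key : 1 ≤ 7 * s * 2 ^ W * ((2 : ℝ) ^ b)⁻¹ := by
    rcases hL with ⟨P, hP, hL⟩ | ⟨Ω, hΩ, p, P, hP, hp0, hp1, hL⟩
    · have h0 : 0 < 2 ^ W := by positivity
      exact (hard_tri α h).pp (hP ⟨0, h0⟩).size_pos P hP hL
    · have hne : Nonempty Ω := by
        by_contra hcon
        rw [not_nonempty_iff] at hcon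
        rw [Finset.univ_eq_empty, Finset.sum_empty] at hp1
        norm_num at hp1
      refine (hard_tri α h).gap (hP hne.some).size_pos p hp0 hp1 P hP fun x => ?_
      refine ⟨fun hx => ?_, fun hx => ?_⟩
      · refine ((hL x).1 hx).trans (le_of_eq ?_)
        exact Finset.sum_congr rfl fun ω _ => by congr
      · refine le_trans (le_of_eq ?_) ((hL x).2 hx)
        exact Finset.sum_congr rfl fun ω _ => by congr
  have h1 : (2 : ℝ) ^ b ≤ 7 * s * 2 ^ W := by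
    have h2 := mul_le_mul_of_nonneg_right key hb.le
    rwa [one_mul, mul_assoc (7 * (s : ℝ) * 2 ^ W), inv_mul_cancel₀ hb.ne', mul_one] at h2
  exact_mod_cast h1

end Pool.Agent.WRA
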