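import Pool.Agent.WRA.Bot
import Pool.Agent.WRA.Ext
import Pool.Agent.UM.Modes
import Pool.Agent.UM.Parm

set_option autoImplicit false

/-!
# Average-case hardness and the PP mode of nearly weakly read-once linear programs
-/

namespace Pool.Agent.WRA

open Module Finset
open Pool.Agent.WRL
open Pool.Agent.UM (InPP InParity InPSPACE InGap)

/-- The sets decided by deterministic linear branching programs with at most `s` nodes for which the
redundant forms of every computation path span a space of dimension at most `k`. -/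
def ByLBP (I : Type) (k s : ℕ) : ((I → ZMod 2) → Prop) → Prop := fun L =>
  ∃ P : LBP (I → ZMod 2), P.Near k ∧ P.size ≤ s ∧ ∀ x, L x ↔ P.Accepts x

/-- The sets decided by ordinary read-once branching programs with at most `s` nodes. -/
def ByOrd (I : Type) (s : ℕ) : ((I → ZMod 2) → Prop) → Prop := fun L =>
  ∃ P : LBP (I → ZMod 2), P.ReadOnce ∧ (∀ v, P.leaf v = none → ∃ i : I, P.form v = LinearMap.proj i) ∧
    P.size ≤ s ∧ ∀ x, L x ↔ P.Accepts x

namespace LBP

variable {E : Type} [AddCommGroup E] [Module (ZMod 2) E]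

/-- The program with one node. -/
def one (E : Type) [AddCommGroup E] [Module (ZMod 2) E] (b : Bool) : LBP E where
  V := Unit
  fin := inferInstance
  start := ()
  leaf := fun _ => some b
  form := fun _ => 0
  next := fun _ _ => ()
  height := fun _ => 0
  dec := by intro u c h; cases h

lemma one_size (b : Bool) : (one E b).size = 1 := rfl

lemma one_readOnce (b : Bool) : (one E b).ReadOnce := by
  intro v _ h
  cases h

lemma one_accepts (b : Bool) (x : E) : (one E b).Accepts x ↔ b = true := by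
  constructor
  · rintro ⟨u, -, h⟩
    exact Option.some.inj h
  · rintro rfl
    exact ⟨(), ⟨0, rfl⟩, rfl⟩

variable (P : LBP E)

lemma size_pos : 0 < P.size := by
  let _ := P.fin
  exact Fintype.card_pos_iff.mpr ⟨P.start⟩

/-- Read-once programs have no redundant forms. -/
lemma near_zero (h : P.ReadOnce) : P.Near 0 := by
  left
  intro x
  have h1 : P.RedTop x = ⊥ := by
    unfold RedTop
    rw [Submodule.span_eq_bot]
    rintro l ⟨u, hu, hl, hmem, rfl⟩
    exact absurd hmem (h u (P.visits_reach hu) hl)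
  rw [h1, finrank_bot]

lemma near_mono [Finite E] {k k' : ℕ} (hk : k ≤ k') (h : P.Near k) : P.Near k' := by
  rcases h with h | h
  · exact Or.inl fun x => (h x).trans hk
  · exact Or.inr fun x => (h x).trans hk

end LBP

section Abs

variable {E : Type} [AddCommGroup E] [Module (ZMod 2) E] [Fintype E]

/-- `f` has correlation at most `δ` with a constant and at most `s δ` with a program of size `s`. -/
structure Hard (f : E → ZMod 2) (k : ℕ) (δ : ℝ) : Prop where
  nonneg : 0 ≤ δ
  bound : ∀ P : LBP E, P.Near k → ∀ (_ : DecidablePred P.Accepts),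
    |∑ x, if P.Accepts x then sg (f x) else 0| ≤ P.size * (Fintype.card E * δ)

lemma hard_of_dirExt {f : E → ZMod 2} {a k : ℕ} {ε δ : ℝ} (hf : DirExt f (2 * (a + k)) ε)
    (hε : 0 ≤ ε) (ha : a ≤ finrank (ZMod 2) E) (hδ0 : 0 ≤ δ) (hδ : (2 ^ a)⁻¹ + ε ≤ δ ^ 2) :
    Hard f k δ :=
  ⟨hδ0, fun P hP _ => P.corr hf hε ha hδ0 hδ hP⟩

variable {f : E → ZMod 2} {k : ℕ} {δ : ℝ}

lemma Hard.const (h : Hard f k δ) : |∑ x, sg (f x)| ≤ Fintype.card E * δ := by
  classical
  have h1 := h.bound (LBP.one E true)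
    (LBP.near_mono _ (Nat.zero_le k) (LBP.near_zero _ (LBP.one_readOnce true))) inferInstance
  rw [LBP.one_size, Nat.cast_one, one_mul] at h1
  have h2 : (∑ x, if (LBP.one E true).Accepts x then sg (f x) else 0) = ∑ x, sg (f x) :=
    Finset.sum_congr rfl fun x _ => by rw [if_pos ((LBP.one_accepts true x).mpr rfl)]
  rwa [h2] at h1

/-- a class of members with small correlation -/
lemma Hard.member (h : Hard f k δ) {s : ℕ} {L : E → Prop} [DecidablePred L]
    (hL : ∃ P : LBP E, P.Near k ∧ P.size ≤ s ∧ ∀ x, L x ↔ P.Accepts x) :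
    |∑ x, if L x then sg (f x) else 0| ≤ s * (Fintype.card E * δ) := by
  classical
  obtain ⟨P, hP, hs, hL⟩ := hL
  have h1 := h.bound P hP inferInstance
  have h2 : (∑ x, if P.Accepts x then sg (f x) else 0) = ∑ x, if L x then sg (f x) else 0 :=
    Finset.sum_congr rfl fun x _ => by simp only [hL x]
  rw [h2] at h1
  refine h1.trans (mul_le_mul_of_nonneg_right (by exact_mod_cast hs) ?_)
  exact mul_nonneg (Nat.cast_nonneg _) h.nonneg

/-- Average-case hardness. -/
lemma Hard.agree (h : Hard f k δ) (P : LBP E) (hP : P.Near k) :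
    2 * (Nat.card {x // P.Accepts x ↔ f x = 1} : ℝ) ≤
      Fintype.card E * (1 + (1 + 2 * P.size) * δ) := by
  classical
  have h1 := h.bound P hP inferInstance
  have h2 := h.const
  have h3 : ∀ x, (2 : ℝ) * (if (P.Accepts x ↔ f x = 1) then 1 else 0) =
      1 + sg (f x) - 2 * (if P.Accepts x then sg (f x) else 0) := by
    intro x
    rcases zmod_cases (f x) with hx | hx
    · rw [hx, sg_zero]
      by_cases hA : P.Accepts x
      · simp only [hA, if_true, true_iff]
        rw [if_neg (by decide)]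
        norm_num
      · simp only [hA, if_false, false_iff]
        rw [if_pos (by decide)]
        norm_num
    · rw [hx, sg_one]
      by_cases hA : P.Accepts x
      · simp only [hA, if_true]
        norm_num
      · simp only [hA, if_false]
        norm_num
  have h4 : (Nat.card {x // P.Accepts x ↔ f x = 1} : ℝ) =
      ∑ x, (if (P.Accepts x ↔ f x = 1) then (1 : ℝ) else 0) := by
    rw [Nat.card_eq_fintype_card, Fintype.card_subtype, Finset.sum_boole]
  rw [h4, Finset.mul_sum, Finset.sum_congr rfl fun x _ => h3 x, Finset.sum_sub_distrib,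
    Finset.sum_add_distrib, Finset.sum_const, Finset.card_univ, nsmul_eq_mul, mul_one,
    ← Finset.mul_sum]
  have h5 := (abs_le.mp h1).1
  have h6 := (abs_le.mp h2).2
  nlinarith

/-- PP mode. -/
lemma Hard.pp (h : Hard f k δ) {s W : ℕ} (hs : 1 ≤ s) (P : Fin (2 ^ W) → E → Prop)
    (hP : ∀ w, ∃ Q : LBP E, Q.Near k ∧ Q.size ≤ s ∧ ∀ x, P w x ↔ Q.Accepts x)
    (hL : ∀ x, f x = 1 ↔ 2 ^ W < 2 * Nat.card {w // P w x}) : 1 ≤ 7 * s * 2 ^ W * δ := by
  classical
  have hδ := h.nonneg
  have h2 := h.const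
  have h3 : ∀ x, 1 ≤ (2 * 2 ^ W + 1) * sg (f x) - 4 * ∑ w, if P w x then sg (f x) else 0 := by
    intro x
    have h4 : (∑ w, if P w x then sg (f x) else 0) = (Nat.card {w // P w x} : ℝ) * sg (f x) := by
      rw [Nat.card_eq_fintype_card, Fintype.card_subtype, Finset.sum_ite, Finset.sum_const,
        Finset.sum_const_zero, add_zero, nsmul_eq_mul]
    rw [h4]
    rcases zmod_cases (f x) with hx | hx
    · rw [hx, sg_zero]
      have h5 : ¬ (2 ^ W < 2 * Nat.card {w // P w x}) := by
        rw [← hL x, hx]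
        decide
      have h6 : 2 * (Nat.card {w // P w x} : ℝ) ≤ 2 ^ W := by exact_mod_cast not_lt.mp h5
      linarith
    · rw [hx, sg_one]
      have h5 := (hL x).mp hx
      have h6 : (2 : ℝ) ^ W + 1 ≤ 2 * (Nat.card {w // P w x} : ℝ) := by exact_mod_cast h5
      linarith
  have h4 : (Fintype.card E : ℝ) ≤ ∑ x, ((2 * 2 ^ W + 1) * sg (f x) -
      4 * ∑ w, if P w x then sg (f x) else 0) := by
    have := Finset.sum_le_sum fun x (_ : x ∈ Finset.univ) => h3 x
    rwa [Finset.sum_const, Finset.card_univ, nsmul_eq_mul, mul_one] at this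
  rw [Finset.sum_sub_distrib, ← Finset.mul_sum, ← Finset.mul_sum, Finset.sum_comm] at h4
  have h5 : |∑ w : Fin (2 ^ W), ∑ x, if P w x then sg (f x) else 0| ≤
      2 ^ W * (s * (Fintype.card E * δ)) := by
    refine (Finset.abs_sum_le_sum_abs _ _).trans ?_
    refine (Finset.sum_le_sum fun w _ => h.member (hP w)).trans (le_of_eq ?_)
    rw [Finset.sum_const, Finset.card_univ, Fintype.card_fin, nsmul_eq_mul]
    push_cast
    ring
  have h6 := (abs_le.mp h5).1
  have h7 := (abs_le.mp h2).2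
  have hE : (0 : ℝ) < Fintype.card E := by exact_mod_cast Fintype.card_pos
  have hs' : (1 : ℝ) ≤ s := by exact_mod_cast hs
  have hW : (1 : ℝ) ≤ 2 ^ W := one_le_pow₀ (by norm_num)
  have h8 : (Fintype.card E : ℝ) ≤ Fintype.card E * (7 * s * 2 ^ W * δ) := by
    have e1 : (2 * 2 ^ W + 1) * ∑ x, sg (f x) ≤ (2 * 2 ^ W + 1) * (Fintype.card E * δ) :=
      mul_le_mul_of_nonneg_left h7 (by positivity)
    have e2 : (2 * 2 ^ W + 1) * (Fintype.card E * δ) ≤ (3 * (s * 2 ^ W)) * (Fintype.card E * δ) := by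
      apply mul_le_mul_of_nonneg_right _ (mul_nonneg hE.le hδ)
      nlinarith
    nlinarith
  by_contra hcon
  push_neg at hcon
  nlinarith

/-- Randomised mode with a gap. -/
lemma Hard.gap (h : Hard f k δ) {s W : ℕ} (hs : 1 ≤ s) {Ω : Type} [Fintype Ω] (p : Ω → ℝ)
    (hp0 : ∀ ω, 0 ≤ p ω) (hp1 : ∑ ω, p ω = 1) (P : Ω → E → Prop) [∀ ω x, Decidable (P ω x)]
    (hP : ∀ w, ∃ Q : LBP E, Q.Near k ∧ Q.size ≤ s ∧ ∀ x, P w x ↔ Q.Accepts x)
    (hL : ∀ x, (f x = 1 → 1 / 2 + 1 / 2 ^ W ≤ ∑ ω, if P ω x then p ω else 0) ∧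
      (f x ≠ 1 → (∑ ω, if P ω x then p ω else 0) ≤ 1 / 2 - 1 / 2 ^ W)) :
    1 ≤ 7 * s * 2 ^ W * δ := by
  have hδ := h.nonneg
  have h2 := h.const
  have h3 : ∀ x, 2 * (1 / 2 ^ W) ≤ sg (f x) - 2 * ∑ w, p w * if P w x then sg (f x) else 0 := by
    intro x
    have h4 : (∑ w, p w * if P w x then sg (f x) else 0) =
        (∑ ω, if P ω x then p ω else 0) * sg (f x) := by
      rw [Finset.sum_mul]
      refine Finset.sum_congr rfl fun w _ => ?_
      split_ifs <;> ring
    rw [h4]
    rcases zmod_cases (f x) with hx | hx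
    · rw [hx, sg_zero]
      have := (hL x).2 (by rw [hx]; decide)
      linarith
    · rw [hx, sg_one]
      have := (hL x).1 hx
      linarith
  have h4 : (Fintype.card E : ℝ) * (2 * (1 / 2 ^ W)) ≤ ∑ x, (sg (f x) -
      2 * ∑ w, p w * if P w x then sg (f x) else 0) := by
    have := Finset.sum_le_sum fun x (_ : x ∈ Finset.univ) => h3 x
    rwa [Finset.sum_const, Finset.card_univ, nsmul_eq_mul] at this
  rw [Finset.sum_sub_distrib, ← Finset.mul_sum, Finset.sum_comm] at h4
  have h5 : |∑ w : Ω, ∑ x, p w * if P w x then sg (f x) else 0| ≤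
      s * (Fintype.card E * δ) := by
    refine (Finset.abs_sum_le_sum_abs _ _).trans ?_
    have h6 : ∀ w, |∑ x, p w * if P w x then sg (f x) else 0| ≤ p w * (s * (Fintype.card E * δ)) := by
      intro w
      rw [← Finset.mul_sum, abs_mul, abs_of_nonneg (hp0 w)]
      exact mul_le_mul_of_nonneg_left (h.member (hP w)) (hp0 w)
    refine (Finset.sum_le_sum fun w _ => h6 w).trans (le_of_eq ?_)
    rw [← Finset.sum_mul, hp1, one_mul]
  have h6 := (abs_le.mp h5).1
  have h7 := (abs_le.mp h2).2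
  have hE : (0 : ℝ) < Fintype.card E := by exact_mod_cast Fintype.card_pos
  have hs' : (1 : ℝ) ≤ s := by exact_mod_cast hs
  have hW : (0 : ℝ) < 2 ^ W := by positivity
  have h8 : (Fintype.card E : ℝ) * (2 * (1 / 2 ^ W)) ≤ Fintype.card E * ((1 + 2 * s) * δ) := by
    nlinarith
  have h9 : 2 * (1 / 2 ^ W) ≤ (1 + 2 * s) * δ := le_of_mul_le_mul_left h8 hE
  have h10 : (2 : ℝ) ≤ (1 + 2 * s) * δ * 2 ^ W := by
    have := mul_le_mul_of_nonneg_right h9 hW.le
    rwa [mul_assoc, one_div, inv_mul_cancel₀ hW.ne', mul_one] at this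
  have h11 : (1 + 2 * s) * δ * 2 ^ W ≤ (3 * s) * δ * 2 ^ W := by
    apply mul_le_mul_of_nonneg_right _ hW.le
    apply mul_le_mul_of_nonneg_right _ hδ
    linarith
  have h12 : 0 ≤ s * 2 ^ W * δ := by positivity
  nlinarith

end Abs

end Pool.Agent.WRA
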