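import Pool.Agent.WRA.Modes

set_option autoImplicit false

/-!
# Programs which read a list of different variables, and closure properties
-/

namespace Pool.Agent.WRA

open Module Finset

/-! ### A criterion -/

namespace LBP

variable {I : Type}

/-- A program in which the tested variable is different from the variables tested at the higher nodes
is read-once. -/
lemma readOnce_of_height (P : LBP (I → ZMod 2)) (h : ∀ v, P.leaf v = none → ∃ i : I,
    P.form v = LinearMap.proj i ∧ ∀ u, P.leaf u = none → P.height v < P.height u →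
      ∃ j : I, j ≠ i ∧ P.form u = LinearMap.proj j) : P.ReadOnce := by
  classical
  intro v _ hv hmem
  obtain ⟨i, hi, hu⟩ := h v hv
  have hle : P.Pre v ≤ LinearMap.ker
      ((LinearMap.applyₗ (Pi.single i 1 : I → ZMod 2)) : Dual (ZMod 2) (I → ZMod 2) →ₗ[ZMod 2] ZMod 2) := by
    unfold Pre
    rw [Submodule.span_le]
    rintro l ⟨u, b, -, h2, h3, rfl⟩
    have h4 := P.reach_height h3
    have h5 := P.dec u b h2
    obtain ⟨j, hj, hj'⟩ := hu u h2 (by omega)
    rw [SetLike.mem_coe, LinearMap.mem_ker, hj']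
    simp [Pi.single_apply, hj]
  have h1 := hle hmem
  rw [LinearMap.mem_ker, hi] at h1
  simp at h1

end LBP

/-! ### Oblivious programs -/

section Obl

variable {I : Type} {Q : Type} [Fintype Q]

/-- The program that reads the variables of the list `l` in this order, with the states `Q`. -/
noncomputable def obl (l : List I) (δ : I → Q → ZMod 2 → Q) (q0 : Q) (acc : Q → Bool) :
    LBP (I → ZMod 2) where
  V := Fin (l.length + 1) × Q
  fin := inferInstance
  start := (0, q0)
  leaf := fun v => if (v.1 : ℕ) < l.length then none else some (acc v.2)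
  form := fun v => if h : (v.1 : ℕ) < l.length then LinearMap.proj (l[(v.1 : ℕ)]) else 0
  next := fun v b => if h : (v.1 : ℕ) < l.length then
    (⟨v.1 + 1, by omega⟩, δ (l[(v.1 : ℕ)]) v.2 b) else v
  height := fun v => l.length - v.1
  dec := by
    intro v b h
    by_cases hv : (v.1 : ℕ) < l.length
    · rw [dif_pos hv]
      simp only
      omega
    · rw [if_neg hv] at h
      cases h

variable (l : List I) (δ : I → Q → ZMod 2 → Q) (q0 : Q) (acc : Q → Bool)

lemma obl_size : (obl l δ q0 acc).size = (l.length + 1) * Fintype.card Q := by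
  show Fintype.card (Fin (l.length + 1) × Q) = _
  rw [Fintype.card_prod, Fintype.card_fin]

lemma obl_form (v : (obl l δ q0 acc).V) (hv : (obl l δ q0 acc).leaf v = none) :
    ∃ h : (v.1 : ℕ) < l.length, (obl l δ q0 acc).form v = LinearMap.proj (l[(v.1 : ℕ)]) := by
  by_cases h : (v.1 : ℕ) < l.length
  · refine ⟨h, ?_⟩
    show (if h : (v.1 : ℕ) < l.length then LinearMap.proj (l[(v.1 : ℕ)]) else 0 :
      Dual (ZMod 2) (I → ZMod 2)) = _
    rw [dif_pos h]
  · exfalso
    have h1 : (if (v.1 : ℕ) < l.length then none else some (acc v.2)) = none := hv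
    rw [if_neg h] at h1
    cases h1

lemma obl_readOnce (hl : l.Nodup) : (obl l δ q0 acc).ReadOnce := by
  refine LBP.readOnce_of_height _ fun v hv => ?_
  obtain ⟨h, hf⟩ := obl_form l δ q0 acc v hv
  refine ⟨_, hf, fun u hu hlt => ?_⟩
  obtain ⟨h', hf'⟩ := obl_form l δ q0 acc u hu
  refine ⟨_, ?_, hf'⟩
  have h1 : l.length - (v.1 : ℕ) < l.length - (u.1 : ℕ) := hlt
  intro he
  have h2 := (hl.getElem_inj_iff (hi := h') (hj := h)).mp he
  omega

lemma obl_ord (v : (obl l δ q0 acc).V) (hv : (obl l δ q0 acc).leaf v = none) :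
    ∃ i : I, (obl l δ q0 acc).form v = LinearMap.proj i := by
  obtain ⟨h, hf⟩ := obl_form l δ q0 acc v hv
  exact ⟨_, hf⟩

/-- The final state. -/
def fin (z : I → ZMod 2) (q : Q) (l : List I) : Q := l.foldl (fun q i => δ i q (z i)) q

lemma obl_step (z : I → ZMod 2) (v : (obl l δ q0 acc).V) (h : (v.1 : ℕ) < l.length) :
    (obl l δ q0 acc).step z v = (⟨v.1 + 1, by omega⟩, δ (l[(v.1 : ℕ)]) v.2 (z (l[(v.1 : ℕ)]))) := by
  have h1 : (obl l δ q0 acc).leaf v = none := by
    show (if (v.1 : ℕ) < l.length then none else some (acc v.2)) = none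
    rw [if_pos h]
  rw [LBP.step_inner _ h1]
  have h2 : (obl l δ q0 acc).form v = LinearMap.proj (l[(v.1 : ℕ)]) := by
    show (if h : (v.1 : ℕ) < l.length then LinearMap.proj (l[(v.1 : ℕ)]) else 0 :
      Dual (ZMod 2) (I → ZMod 2)) = _
    rw [dif_pos h]
  rw [h2]
  show (if h : (v.1 : ℕ) < l.length then
    ((⟨v.1 + 1, by omega⟩ : Fin (l.length + 1)), δ (l[(v.1 : ℕ)]) v.2
      ((LinearMap.proj (l[(v.1 : ℕ)]) : (I → ZMod 2) →ₗ[ZMod 2] ZMod 2) z)) else v) = _
  rw [dif_pos h]
  rfl

lemma obl_iter (z : I → ZMod 2) : ∀ t (ht : t ≤ l.length),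
    ((obl l δ q0 acc).step z)^[t] (obl l δ q0 acc).start =
      ((⟨t, by omega⟩ : Fin (l.length + 1)), fin δ z q0 (l.take t)) := by
  intro t
  induction t with
  | zero =>
    intro _
    rfl
  | succ t ih =>
    intro ht
    rw [Function.iterate_succ_apply', ih (by omega), obl_step _ _ _ _ _ _ (by show t < l.length; omega)]
    refine Prod.ext rfl ?_
    show δ (l[t]) (fin δ z q0 (l.take t)) (z (l[t])) = fin δ z q0 (l.take (t + 1))
    rw [List.take_succ_eq_append_getElem (by omega), fin, fin, List.foldl_append]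
    rfl

lemma obl_accepts (z : I → ZMod 2) :
    (obl l δ q0 acc).Accepts z ↔ acc (fin δ z q0 l) = true := by
  have h1 := obl_iter l δ q0 acc z l.length le_rfl
  rw [List.take_length] at h1
  have hv : (obl l δ q0 acc).Visits z
      ((⟨l.length, by omega⟩ : Fin (l.length + 1)), fin δ z q0 l) := ⟨l.length, h1⟩
  have hleaf : (obl l δ q0 acc).leaf
      ((⟨l.length, by omega⟩ : Fin (l.length + 1)), fin δ z q0 l) = some (acc (fin δ z q0 l)) := by
    show (if l.length < l.length then none else some (acc (fin δ z q0 l))) = _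
    rw [if_neg (lt_irrefl _)]
  rw [LBP.accepts_iff _ hv]
  constructor
  · rintro ⟨t, ht⟩
    rw [LBP.iter_leaf _ (by rw [hleaf]; simp), hleaf] at ht
    exact Option.some.inj ht
  · intro h
    exact ⟨0, by rw [Function.iterate_zero_apply, hleaf, h]⟩

/-- Membership in the class of the ordinary programs. -/
lemma byOrd_obl (hl : l.Nodup) {s : ℕ} (hs : (l.length + 1) * Fintype.card Q ≤ s)
    {L : (I → ZMod 2) → Prop} (hL : ∀ z, L z ↔ acc (fin δ z q0 l) = true) : ByOrd I s L := by
  refine ⟨obl l δ q0 acc, obl_readOnce l δ q0 acc hl, obl_ord l δ q0 acc, ?_, fun z => ?_⟩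
  · rw [obl_size]
    exact hs
  · rw [hL, obl_accepts]

end Obl

/-! ### Closure properties -/

section Closure

variable {I : Type} {s k : ℕ}

lemma byOrd_const (hs : 1 ≤ s) (b : Prop) : ByOrd I s fun _ => b := by
  classical
  refine ⟨LBP.one _ (decide b), LBP.one_readOnce _, fun v h => ?_, ?_, fun x => ?_⟩
  · cases h
  · rw [LBP.one_size]
    exact hs
  · rw [LBP.one_accepts, decide_eq_true_iff]

lemma byLBP_const (hs : 1 ≤ s) (b : Prop) [Finite I] : ByLBP I k s fun _ => b := by
  classical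
  have := Fintype.ofFinite I
  refine ⟨LBP.one _ (decide b), ?_, ?_, fun x => ?_⟩
  · exact LBP.near_mono _ (Nat.zero_le k) (LBP.near_zero _ (LBP.one_readOnce _))
  · rw [LBP.one_size]
    exact hs
  · rw [LBP.one_accepts, decide_eq_true_iff]

lemma ByOrd.size_pos {L : (I → ZMod 2) → Prop} (h : ByOrd I s L) : 1 ≤ s := by
  obtain ⟨P, -, -, h, -⟩ := h
  exact le_trans P.size_pos h

lemma ByLBP.size_pos {L : (I → ZMod 2) → Prop} (h : ByLBP I k s L) : 1 ≤ s := by
  obtain ⟨P, -, h, -⟩ := h
  exact le_trans P.size_pos h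

lemma ByOrd.byLBP {L : (I → ZMod 2) → Prop} (h : ByOrd I s L) : ByLBP I 0 s L := by
  obtain ⟨P, h1, -, h2, h3⟩ := h
  exact ⟨P, P.near_zero h1, h2, h3⟩

end Closure

/-! ### Complements -/

namespace LBP

variable {E : Type} [AddCommGroup E] [Module (ZMod 2) E] (P : LBP E)

/-- The program with the opposite answers. -/
def neg : LBP E where
  V := P.V
  fin := P.fin
  start := P.start
  leaf := fun v => (P.leaf v).map (!·)
  form := P.form
  next := P.next
  height := P.height
  dec := by
    intro u b h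
    exact P.dec u b (by simpa using h)

lemma neg_leaf (v : P.V) : P.neg.leaf v = none ↔ P.leaf v = none := by
  show (P.leaf v).map (!·) = none ↔ _
  simp

lemma neg_step (x : E) (v : P.V) : P.neg.step x v = P.step x v := by
  unfold step
  by_cases h : P.leaf v = none
  · rw [if_pos ((P.neg_leaf v).mpr h), if_pos h]
    rfl
  · rw [if_neg fun h' => h ((P.neg_leaf v).mp h'), if_neg h]

lemma neg_iter (x : E) (t : ℕ) (v : P.V) : (P.neg.step x)^[t] v = (P.step x)^[t] v := by
  induction t with
  | zero => rfl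
  | succ t ih =>
    rw [Function.iterate_succ_apply', Function.iterate_succ_apply', ih]
    exact P.neg_step x _

lemma neg_reach (u w : P.V) : P.neg.Reach u w ↔ P.Reach u w := by
  have h : (fun u w => P.neg.leaf u = none ∧ ∃ b, w = P.neg.next u b) =
      fun u w => P.leaf u = none ∧ ∃ b, w = P.next u b := by
    funext u w
    rw [P.neg_leaf u]
    rfl
  show Relation.ReflTransGen (fun u w => P.neg.leaf u = none ∧ ∃ b, w = P.neg.next u b) u w ↔ _
  rw [h]
  rfl

lemma neg_pre (v : P.V) : P.neg.Pre v = P.Pre v := by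
  unfold Pre
  congr 1
  ext l
  constructor
  · rintro ⟨u, b, h1, h2, h3, h4⟩
    exact ⟨u, b, (P.neg_reach _ _).mp h1, (P.neg_leaf _).mp h2, (P.neg_reach _ _).mp h3, h4⟩
  · rintro ⟨u, b, h1, h2, h3, h4⟩
    exact ⟨u, b, (P.neg_reach _ _).mpr h1, (P.neg_leaf _).mpr h2, (P.neg_reach _ _).mpr h3, h4⟩

lemma neg_readOnce (h : P.ReadOnce) : P.neg.ReadOnce := by
  intro v h1 h2 h3
  refine h v ((P.neg_reach _ _).mp h1) ((P.neg_leaf _).mp h2) ?_
  rw [← P.neg_pre v]
  exact h3

lemma neg_accepts (x : E) : P.neg.Accepts x ↔ ¬ P.Accepts x := by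
  obtain ⟨t, ht⟩ := P.exists_leaf x _ P.start rfl
  have hv : P.Visits x ((P.step x)^[t] P.start) := ⟨t, rfl⟩
  have hv' : P.neg.Visits x ((P.step x)^[t] P.start) := ⟨t, P.neg_iter x t _⟩
  obtain ⟨b, hb⟩ := Option.ne_none_iff_exists'.mp ht
  have hb' : P.neg.leaf ((P.step x)^[t] P.start) = some (!b) := by
    show (P.leaf _).map (!·) = _
    rw [hb]
    rfl
  have h1 : P.Accepts x ↔ b = true := by
    rw [P.accepts_iff hv]
    constructor
    · rintro ⟨j, hj⟩
      rw [P.iter_leaf (by rw [hb]; simp), hb] at hj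
      exact Option.some.inj hj
    · rintro rfl
      exact ⟨0, hb⟩
  have h2 : P.neg.Accepts x ↔ (!b) = true := by
    rw [P.neg.accepts_iff hv']
    constructor
    · rintro ⟨j, hj⟩
      rw [P.neg.iter_leaf (by rw [hb']; simp), hb'] at hj
      exact Option.some.inj hj
    · intro h
      exact ⟨0, by rw [Function.iterate_zero_apply, hb', h]⟩
  rw [h1, h2]
  cases b <;> simp

end LBP

lemma ByOrd.compl {I : Type} {s : ℕ} {L : (I → ZMod 2) → Prop} (h : ByOrd I s L) :
    ByOrd I s fun x => ¬ L x := by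
  obtain ⟨P, h1, h2, h3, h4⟩ := h
  refine ⟨P.neg, P.neg_readOnce h1, fun v hv => h2 v ((P.neg_leaf v).mp hv), h3, fun x => ?_⟩
  rw [P.neg_accepts]
  exact not_congr (h4 x)

end Pool.Agent.WRA
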