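import Pool.Agent.WRA.Defs
import Pool.Agent.WRA.Core

set_option autoImplicit false

/-!
# Computation paths
-/

namespace Pool.Agent.WRA

open Module
open Pool.Agent.WRL

variable {E : Type} [AddCommGroup E] [Module (ZMod 2) E]

namespace LBP

variable (P : LBP E)

lemma step_inner {x : E} {u : P.V} (h : P.leaf u = none) : P.step x u = P.next u (P.form u x) := by
  rw [step, if_pos h]

lemma step_leaf {x : E} {u : P.V} (h : P.leaf u ≠ none) : P.step x u = u := by
  rw [step, if_neg h]

lemma iter_leaf {x : E} {u : P.V} (h : P.leaf u ≠ none) (t : ℕ) : (P.step x)^[t] u = u := by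
  induction t with
  | zero => rfl
  | succ t ih => rw [Function.iterate_succ_apply', ih, P.step_leaf h]

lemma reach_step (x : E) (u : P.V) : P.Reach u (P.step x u) := by
  by_cases h : P.leaf u = none
  · rw [P.step_inner h]
    exact Relation.ReflTransGen.single ⟨h, _, rfl⟩
  · rw [P.step_leaf h]
    exact Relation.ReflTransGen.refl

lemma reach_iter (x : E) (u : P.V) (t : ℕ) : P.Reach u ((P.step x)^[t] u) := by
  induction t with
  | zero => exact Relation.ReflTransGen.refl
  | succ t ih =>
    rw [Function.iterate_succ_apply']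
    exact ih.trans (P.reach_step x _)

lemma reach_height {u w : P.V} (h : P.Reach u w) : P.height w ≤ P.height u := by
  induction h with
  | refl => exact le_refl _
  | tail _ h2 ih =>
    obtain ⟨h3, b, rfl⟩ := h2
    exact (P.dec _ b h3).le.trans ih

lemma visits_reach {x : E} {u : P.V} (h : P.Visits x u) : P.Reach P.start u := by
  obtain ⟨t, rfl⟩ := h
  exact P.reach_iter x _ t

lemma visits_step {x : E} {u : P.V} (h : P.Visits x u) : P.Visits x (P.step x u) := by
  obtain ⟨t, rfl⟩ := h
  exact ⟨t + 1, by rw [Function.iterate_succ_apply']⟩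

lemma visits_iter {x : E} {u : P.V} (h : P.Visits x u) (t : ℕ) :
    P.Visits x ((P.step x)^[t] u) := by
  induction t with
  | zero => exact h
  | succ t ih =>
    rw [Function.iterate_succ_apply']
    exact P.visits_step ih

/-- Every run reaches a leaf. -/
lemma exists_leaf (x : E) : ∀ (n : ℕ) (u : P.V), P.height u = n →
    ∃ t : ℕ, P.leaf ((P.step x)^[t] u) ≠ none := by
  intro n
  induction n using Nat.strong_induction_on with
  | _ n ih =>
    intro u hu
    by_cases h : P.leaf u = none
    · obtain ⟨t, ht⟩ := ih (P.height (P.step x u)) (by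
        rw [← hu, P.step_inner h]
        exact P.dec _ _ h) _ rfl
      refine ⟨t + 1, ?_⟩
      rw [Function.iterate_succ_apply]
      exact ht
    · exact ⟨0, h⟩

/-- Acceptance can be seen from every node of the path. -/
lemma accepts_iff {x : E} {v : P.V} (h : P.Visits x v) :
    P.Accepts x ↔ ∃ t : ℕ, P.leaf ((P.step x)^[t] v) = some true := by
  obtain ⟨i, rfl⟩ := h
  constructor
  · rintro ⟨u, ⟨j, rfl⟩, hu⟩
    rcases le_total i j with hij | hij
    · refine ⟨j - i, ?_⟩
      rw [← Function.iterate_add_apply, Nat.sub_add_cancel hij]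
      exact hu
    · refine ⟨0, ?_⟩
      have h1 : (P.step x)^[i] P.start = (P.step x)^[j] P.start := by
        have h2 : P.leaf ((P.step x)^[j] P.start) ≠ none := by rw [hu]; simp
        have h3 := P.iter_leaf (x := x) h2 (i - j)
        rw [← Function.iterate_add_apply, Nat.sub_add_cancel hij] at h3
        exact h3
      rw [Function.iterate_zero_apply, h1]
      exact hu
  · rintro ⟨t, ht⟩
    exact ⟨_, ⟨t + i, rfl⟩, by rw [Function.iterate_add_apply]; exact ht⟩

/-! ### The forms tested before a node -/

lemma mem_pre {u v : P.V} {b : ZMod 2} (h1 : P.Reach P.start u) (h2 : P.leaf u = none)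
    (h3 : P.Reach (P.next u b) v) : P.form u ∈ P.Pre v :=
  Submodule.subset_span ⟨u, b, h1, h2, h3, rfl⟩

lemma pre_mono {u w : P.V} (h : P.Reach u w) : P.Pre u ≤ P.Pre w := by
  apply Submodule.span_mono
  rintro l ⟨a, b, h1, h2, h3, h4⟩
  exact ⟨a, b, h1, h2, h3.trans h, h4⟩

lemma pre_start : P.Pre P.start = ⊥ := by
  rw [Pre, Submodule.span_eq_bot]
  rintro l ⟨u, b, h1, h2, h3, -⟩
  have h4 := P.reach_height h1
  have h5 := P.reach_height h3
  have h6 := P.dec u b h2
  omega

/-! ### The forms tested from a node on -/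

/-- The span of the forms which are tested on the path of `x` that starts at `v`. -/
def Tst (v : P.V) (x : E) : Submodule (ZMod 2) (Dual (ZMod 2) E) :=
  Submodule.span (ZMod 2) {l | ∃ t : ℕ, P.leaf ((P.step x)^[t] v) = none ∧
    l = P.form ((P.step x)^[t] v)}

lemma tst_leaf {v : P.V} {x : E} (h : P.leaf v ≠ none) : P.Tst v x = ⊥ := by
  rw [Tst, Submodule.span_eq_bot]
  rintro l ⟨t, h1, -⟩
  rw [P.iter_leaf h] at h1
  exact absurd h1 h

lemma tst_inner {v : P.V} {x : E} :
    P.Tst v x ≤ Submodule.span (ZMod 2) {P.form v} ⊔ P.Tst (P.step x v) x := by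
  rw [Tst, Submodule.span_le]
  rintro l ⟨t, h1, rfl⟩
  cases t with
  | zero => exact Submodule.mem_sup_left (Submodule.mem_span_singleton_self _)
  | succ t =>
    rw [Function.iterate_succ_apply] at h1 ⊢
    exact Submodule.mem_sup_right (Submodule.subset_span ⟨t, h1, rfl⟩)

variable [Fintype E]

lemma iter_congr {v : P.V} {x y : E} (h : y ∈ cell (P.Tst v x) x) (t : ℕ) :
    (P.step y)^[t] v = (P.step x)^[t] v := by
  induction t with
  | zero => rfl
  | succ t ih =>
    rw [Function.iterate_succ_apply', Function.iterate_succ_apply', ih]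
    by_cases h1 : P.leaf ((P.step x)^[t] v) = none
    · rw [P.step_inner h1, P.step_inner h1,
        mem_cell.1 h _ (Submodule.subset_span ⟨t, h1, rfl⟩)]
    · rw [P.step_leaf h1, P.step_leaf h1]

lemma tst_congr {v : P.V} {x y : E} (h : y ∈ cell (P.Tst v x) x) : P.Tst v y = P.Tst v x := by
  unfold Tst
  congr 1
  ext l
  simp only [P.iter_congr h]

/-- Visiting `v` depends only on the values at the forms of `Pre v`. -/
lemma visits_congr {v : P.V} {x y : E} (h : y ∈ cell (P.Pre v) x) (hx : P.Visits x v) :
    P.Visits y v := by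
  obtain ⟨t, ht⟩ := hx
  refine ⟨t, ?_⟩
  induction t generalizing v with
  | zero => exact ht
  | succ t ih =>
    rw [Function.iterate_succ_apply'] at ht
    have hr : P.Reach ((P.step x)^[t] P.start) v := ht ▸ P.reach_step x _
    have h1 : y ∈ cell (P.Pre ((P.step x)^[t] P.start)) x := by
      rw [mem_cell]
      exact fun l hl => mem_cell.1 h l (P.pre_mono hr hl)
    rw [Function.iterate_succ_apply', ih h1 rfl]
    by_cases h2 : P.leaf ((P.step x)^[t] P.start) = none
    · rw [P.step_inner h2] at ht
      have h3 : P.form ((P.step x)^[t] P.start) ∈ P.Pre v :=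
        P.mem_pre (P.reach_iter x _ t) h2 (by rw [ht]; exact Relation.ReflTransGen.refl)
      rw [P.step_inner h2, mem_cell.1 h _ h3]
      exact ht
    · rw [P.step_leaf h2] at ht ⊢
      exact ht

end LBP

end Pool.Agent.WRA
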