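import Pool.Agent.WRA.LowPol

set_option autoImplicit false

/-!
# The union of deterministic programs as a nondeterministic program
-/

namespace Pool.Agent.WRA

open Module Finset
open Pool.Agent.WRL

variable {E : Type} [AddCommGroup E] [Module (ZMod 2) E]

namespace LBP

variable (P : LBP E)

lemma neg_visits (x : E) (v : P.V) : P.neg.Visits x v ↔ P.Visits x v := by
  constructor
  · rintro ⟨t, ht⟩
    exact ⟨t, by rw [← ht]; exact (P.neg_iter x t _).symm⟩
  · rintro ⟨t, ht⟩
    exact ⟨t, by rw [← ht]; exact P.neg_iter x t _⟩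

lemma neg_post (v : P.V) : P.neg.Post v = P.Post v := by
  unfold Post
  congr 1
  ext l
  constructor
  · rintro ⟨u, h1, h2, h3⟩
    exact ⟨u, (P.neg_reach _ _).mp h1, (P.neg_leaf _).mp h2, h3⟩
  · rintro ⟨u, h1, h2, h3⟩
    exact ⟨u, (P.neg_reach _ _).mpr h1, (P.neg_leaf _).mpr h2, h3⟩

lemma neg_redTop (x : E) : P.neg.RedTop x = P.RedTop x := by
  unfold RedTop
  congr 1
  ext l
  constructor
  · rintro ⟨u, h1, h2, h3, h4⟩
    exact ⟨u, (P.neg_visits _ _).mp h1, (P.neg_leaf _).mp h2, by rw [← P.neg_pre u]; exact h3, h4⟩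
  · rintro ⟨u, h1, h2, h3, h4⟩
    exact ⟨u, (P.neg_visits _ _).mpr h1, (P.neg_leaf _).mpr h2, by rw [P.neg_pre u]; exact h3, h4⟩

lemma neg_redBot (x : E) : P.neg.RedBot x = P.RedBot x := by
  unfold RedBot
  congr 1
  ext l
  constructor
  · rintro ⟨u, h1, h2, h3, h4⟩
    refine ⟨u, (P.neg_visits _ _).mp h1, (P.neg_leaf _).mp h2, ?_, h4⟩
    rw [← P.neg_post, ← P.neg_step x u]
    exact h3
  · rintro ⟨u, h1, h2, h3, h4⟩
    refine ⟨u, (P.neg_visits _ _).mpr h1, (P.neg_leaf _).mpr h2, ?_, h4⟩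
    rw [P.neg_post, P.neg_step x u]
    exact h3

lemma neg_near {k : ℕ} (h : P.Near k) : P.neg.Near k := by
  rcases h with h | h
  · left
    intro x
    rw [P.neg_redTop]
    exact h x
  · right
    intro x
    rw [P.neg_redBot]
    exact h x

end LBP

lemma ByLBP.compl {I : Type} {k s : ℕ} {L : (I → ZMod 2) → Prop} (h : ByLBP I k s L) :
    ByLBP I k s fun x => ¬ L x := by
  obtain ⟨P, h1, h3, h4⟩ := h
  refine ⟨P.neg, P.neg_near h1, h3, fun x => ?_⟩
  rw [P.neg_accepts]
  exact not_congr (h4 x)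

/-- The union of the programs `P w`. -/
def union {ω : Type} [Fintype ω] (P : ω → LBP E) : Prog E where
  V := Option (Option (Σ w, (P w).V))
  fin := by
    let _ := fun w => (P w).fin
    infer_instance
  start := none
  acc := some none
  edge := fun u v lab =>
    (∃ w, u = none ∧ v = some (some ⟨w, (P w).start⟩) ∧ lab = none) ∨
    (∃ (w : ω) (a : (P w).V) (b : ZMod 2), (P w).leaf a = none ∧ u = some (some ⟨w, a⟩) ∧
      v = some (some ⟨w, (P w).next a b⟩) ∧ lab = some ((P w).form a, b)) ∨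
    (∃ (w : ω) (a : (P w).V), (P w).leaf a = some true ∧ u = some (some ⟨w, a⟩) ∧
      v = some none ∧ lab = none)

section

variable {ω : Type} [Fintype ω] (P : ω → LBP E)

lemma union_size {s : ℕ} (hs : ∀ w, (P w).size ≤ s) :
    (union P).size ≤ Fintype.card ω * s + 2 := by
  let _ := fun w => (P w).fin
  have h1 : (union P).size = Fintype.card (Option (Option (Σ w, (P w).V))) := rfl
  rw [h1, Fintype.card_option, Fintype.card_option, Fintype.card_sigma]
  have h2 : ∑ w, Fintype.card (P w).V ≤ ∑ _w : ω, s := Finset.sum_le_sum fun w _ => hs w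
  rw [Finset.sum_const, Finset.card_univ, smul_eq_mul] at h2
  omega

/-- The nodes which can be reached from a node of `P w`. -/
lemma reach_from {w : ω} {a : (P w).V} {v : (union P).V}
    (h : (union P).Reach (some (some ⟨w, a⟩)) v) :
    v = some none ∨ ∃ b, v = some (some ⟨w, b⟩) ∧ (P w).Reach a b := by
  induction h with
  | refl => exact Or.inr ⟨a, rfl, Relation.ReflTransGen.refl⟩
  | @tail u v' _ hstep ih =>
    obtain ⟨lab, hlab⟩ := hstep
    rcases ih with rfl | ⟨b, rfl, hb⟩
    · rcases hlab with ⟨w', h1, -⟩ | ⟨w', a', b', -, h1, -⟩ | ⟨w', a', -, h1, -⟩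
      · exact absurd h1 (by simp)
      · exact absurd h1 (by simp)
      · exact absurd h1 (by simp)
    · rcases hlab with ⟨w', h1, -⟩ | ⟨w', a', b', h0, h1, h2, -⟩ | ⟨w', a', -, -, h2, -⟩
      · exact absurd h1 (by simp)
      · have h3 := Option.some.inj (Option.some.inj h1)
        obtain ⟨rfl, h4⟩ := Sigma.mk.inj_iff.mp h3
        have h5 := eq_of_heq h4
        subst h5
        exact Or.inr ⟨_, h2, hb.tail ⟨h0, b', rfl⟩⟩
      · exact Or.inl h2

/-- The nodes from which a node of `P w` can be reached. -/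
lemma reach_to {w : ω} {a : (P w).V} {u : (union P).V}
    (h : (union P).Reach u (some (some ⟨w, a⟩))) :
    (u = none ∧ (P w).Reach (P w).start a) ∨ ∃ b, u = some (some ⟨w, b⟩) ∧ (P w).Reach b a := by
  induction h using Relation.ReflTransGen.head_induction_on with
  | refl => exact Or.inr ⟨a, rfl, Relation.ReflTransGen.refl⟩
  | @head u v hstep _ ih =>
    obtain ⟨lab, hlab⟩ := hstep
    rcases ih with ⟨rfl, hb⟩ | ⟨b, rfl, hb⟩
    · rcases hlab with ⟨w', -, h2, -⟩ | ⟨w', a', b', -, -, h2, -⟩ | ⟨w', a', -, -, h2, -⟩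
      · exact absurd h2 (by simp)
      · exact absurd h2 (by simp)
      · exact absurd h2 (by simp)
    · rcases hlab with ⟨w', h1, h2, -⟩ | ⟨w', a', b', h0, h1, h2, -⟩ | ⟨w', a', -, -, h2, -⟩
      · have h3 := Option.some.inj (Option.some.inj h2)
        obtain ⟨rfl, h4⟩ := Sigma.mk.inj_iff.mp h3
        have h5 := eq_of_heq h4
        subst h5
        exact Or.inl ⟨h1, hb⟩
      · have h3 := Option.some.inj (Option.some.inj h2)
        obtain ⟨rfl, h4⟩ := Sigma.mk.inj_iff.mp h3
        have h5 := eq_of_heq h4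
        subst h5
        exact Or.inr ⟨_, h1, hb.head ⟨h0, b', rfl⟩⟩
      · exact absurd h2 (by simp)

lemma union_pre {w : ω} {a : (P w).V} : (union P).Pre (some (some ⟨w, a⟩)) ≤ (P w).Pre a := by
  unfold Prog.Pre
  rw [Submodule.span_le]
  rintro l ⟨u, v, b, h1, h2, h3⟩
  rcases h2 with ⟨w', -, -, h⟩ | ⟨w', a', b', h0, hu, hv, h⟩ | ⟨w', a', -, -, -, h⟩
  · cases h
  · subst hu hv
    have h4 : l = (P w').form a' := by
      have := congrArg Prod.fst (Option.some.inj h)
      exact this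
    rcases reach_to P h3 with ⟨h5, -⟩ | ⟨b'', h5, h6⟩
    · exact absurd h5 (by simp)
    · have h7 := Option.some.inj (Option.some.inj h5)
      obtain ⟨rfl, h8⟩ := Sigma.mk.inj_iff.mp h7
      have h9 := eq_of_heq h8
      subst h9
      rcases reach_to P h1 with ⟨-, h10⟩ | ⟨c, h10, -⟩
      · rw [h4]
        exact (P w').mem_pre h10 h0 h6
      · exact absurd h10 (by show ¬ ((none : Option (Option (Σ w, (P w).V))) = some (some _)); simp)
  · cases h

lemma union_post {w : ω} {a : (P w).V} : (union P).Post (some (some ⟨w, a⟩)) ≤ (P w).Post a := by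
  unfold Prog.Post
  rw [Submodule.span_le]
  rintro l ⟨u, v, b, h1, h2, -⟩
  rcases h2 with ⟨w', -, -, h⟩ | ⟨w', a', b', h0, hu, hv, h⟩ | ⟨w', a', -, -, -, h⟩
  · cases h
  · subst hu hv
    have h4 : l = (P w').form a' := by
      have := congrArg Prod.fst (Option.some.inj h)
      exact this
    rcases reach_from P h1 with h5 | ⟨b'', h5, h6⟩
    · exact absurd (Option.some.inj h5) (by simp)
    · have h7 := Option.some.inj (Option.some.inj h5)
      obtain ⟨rfl, h8⟩ := Sigma.mk.inj_iff.mp h7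
      have h9 := eq_of_heq h8
      subst h9
      rw [h4]
      exact Submodule.subset_span ⟨_, h6, h0, rfl⟩
  · cases h

/-- The computation path of `P w` in the union. -/
lemma union_walk (x : E) (w : ω) (S : (union P).V → (union P).V → Prop)
    (hS : ∀ a, (P w).Visits x a → (P w).leaf a = none →
      S (some (some ⟨w, a⟩)) (some (some ⟨w, (P w).step x a⟩))) (t : ℕ) :
    Relation.ReflTransGen S (some (some ⟨w, (P w).start⟩))
      (some (some ⟨w, ((P w).step x)^[t] (P w).start⟩)) := by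
  induction t with
  | zero => exact Relation.ReflTransGen.refl
  | succ t ih =>
    rw [Function.iterate_succ_apply']
    by_cases h : (P w).leaf (((P w).step x)^[t] (P w).start) = none
    · exact ih.tail (hS _ ⟨t, rfl⟩ h)
    · rw [(P w).step_leaf h]
      exact ih

lemma union_top (x : E) (w : ω) {k : ℕ} (hacc : (P w).Accepts x)
    (hk : finrank (ZMod 2) ((P w).RedTop x) ≤ k) : (union P).AccTop k x := by
  obtain ⟨u, ⟨t, rfl⟩, hu⟩ := hacc
  refine ⟨(P w).RedTop x, hk, ?_⟩
  have h1 : (union P).StepTop x ((P w).RedTop x) none (some (some ⟨w, (P w).start⟩)) :=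
    ⟨none, Or.inl ⟨w, rfl, rfl, rfl⟩, fun t ht => by cases ht⟩
  have h2 : (union P).StepTop x ((P w).RedTop x)
      (some (some ⟨w, ((P w).step x)^[t] (P w).start⟩)) (some none) :=
    ⟨none, Or.inr (Or.inr ⟨w, _, hu, rfl, rfl, rfl⟩), fun t ht => by cases ht⟩
  have h3 := union_walk P x w ((union P).StepTop x ((P w).RedTop x)) (fun a ha hl => by
    refine ⟨some ((P w).form a, (P w).form a x), Or.inr (Or.inl ⟨w, a, _, hl, rfl, ?_, rfl⟩),
      fun t ht => ?_⟩
    · rw [(P w).step_inner hl]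
    · have h4 := Option.some.inj ht
      subst h4
      refine ⟨rfl, fun h5 => ?_⟩
      exact Submodule.subset_span ⟨a, ha, hl, union_pre P h5, rfl⟩) t
  exact (h3.head h1).tail h2

lemma union_bot (x : E) (w : ω) {k : ℕ} (hacc : (P w).Accepts x)
    (hk : finrank (ZMod 2) ((P w).RedBot x) ≤ k) : (union P).AccBot k x := by
  obtain ⟨u, ⟨t, rfl⟩, hu⟩ := hacc
  refine ⟨(P w).RedBot x, hk, ?_⟩
  have h1 : (union P).StepBot x ((P w).RedBot x) none (some (some ⟨w, (P w).start⟩)) :=
    ⟨none, Or.inl ⟨w, rfl, rfl, rfl⟩, fun t ht => by cases ht⟩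
  have h2 : (union P).StepBot x ((P w).RedBot x)
      (some (some ⟨w, ((P w).step x)^[t] (P w).start⟩)) (some none) :=
    ⟨none, Or.inr (Or.inr ⟨w, _, hu, rfl, rfl, rfl⟩), fun t ht => by cases ht⟩
  have h3 := union_walk P x w ((union P).StepBot x ((P w).RedBot x)) (fun a ha hl => by
    refine ⟨some ((P w).form a, (P w).form a x), Or.inr (Or.inl ⟨w, a, _, hl, rfl, ?_, rfl⟩),
      fun t ht => ?_⟩
    · rw [(P w).step_inner hl]
    · have h4 := Option.some.inj ht
      subst h4
      refine ⟨rfl, fun h5 => ?_⟩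
      exact Submodule.subset_span ⟨a, ha, hl, union_post P h5, rfl⟩) t
  exact (h3.head h1).tail h2

/-- Every walk that starts in `P w` with true tests follows the computation path. -/
lemma run_from {x : E} {w : ω} {v : (union P).V}
    (h : (union P).Run x (some (some ⟨w, (P w).start⟩)) v) :
    (v = some none ∧ (P w).Accepts x) ∨ ∃ b, v = some (some ⟨w, b⟩) ∧ (P w).Visits x b := by
  induction h with
  | refl => exact Or.inr ⟨_, rfl, ⟨0, rfl⟩⟩
  | @tail u v' _ hstep ih =>
    obtain ⟨lab, hlab, htrue⟩ := hstep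
    rcases ih with ⟨rfl, hacc⟩ | ⟨b, rfl, hb⟩
    · rcases hlab with ⟨w', h1, -⟩ | ⟨w', a', b', -, h1, -⟩ | ⟨w', a', -, h1, -⟩
      · exact absurd h1 (by simp)
      · exact absurd h1 (by simp)
      · exact absurd h1 (by simp)
    · rcases hlab with ⟨w', h1, -⟩ | ⟨w', a', b', h0, h1, h2, h3⟩ | ⟨w', a', h0, h1, h2, -⟩
      · exact absurd h1 (by simp)
      · have h4 := Option.some.inj (Option.some.inj h1)
        obtain ⟨rfl, h5⟩ := Sigma.mk.inj_iff.mp h4
        have h6 := eq_of_heq h5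
        subst h6
        right
        refine ⟨(P w).step x b, ?_, (P w).visits_step hb⟩
        have h7 := htrue _ h3
        simp only at h7
        rw [h2, (P w).step_inner h0, h7]
      · have h4 := Option.some.inj (Option.some.inj h1)
        obtain ⟨rfl, h5⟩ := Sigma.mk.inj_iff.mp h4
        have h6 := eq_of_heq h5
        subst h6
        exact Or.inl ⟨h2, b, hb, h0⟩

lemma union_acc (x : E) (h : (union P).Acc x) : ∃ w, (P w).Accepts x := by
  rcases Relation.ReflTransGen.cases_head h with h1 | ⟨v, ⟨lab, hlab, -⟩, h2⟩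
  · exact absurd h1 (by show ¬ ((none : Option (Option (Σ w, (P w).V))) = some none); simp)
  · rcases hlab with ⟨w, -, rfl, -⟩ | ⟨w', a', b', -, h1, -⟩ | ⟨w', a', -, h1, -⟩
    · rcases run_from P h2 with ⟨-, h3⟩ | ⟨b, h3, -⟩
      · exact ⟨w, h3⟩
      · exact absurd h3 (by show ¬ ((some none : Option (Option (Σ w, (P w).V))) = some (some _)); simp)
    · exact absurd h1 (by show ¬ ((none : Option (Option (Σ w, (P w).V))) = some (some _)); simp)
    · exact absurd h1 (by show ¬ ((none : Option (Option (Σ w, (P w).V))) = some (some _)); simp)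

end

lemma accTop_acc (P : Prog E) {k : ℕ} {x : E} (h : P.AccTop k x) : P.Acc x := by
  obtain ⟨R, -, h⟩ := h
  exact Relation.ReflTransGen.mono (fun _ _ h3 => P.stepTop_step h3) _ _ h

lemma accBot_acc (P : Prog E) {k : ℕ} {x : E} (h : P.AccBot k x) : P.Acc x := by
  obtain ⟨R, -, h⟩ := h
  refine Relation.ReflTransGen.mono (fun _ _ h3 => ?_) _ _ h
  obtain ⟨lab, h1, h2⟩ := h3
  exact ⟨lab, h1, fun t ht => (h2 t ht).1⟩

/-- NP mode as a nondeterministic program. -/
theorem np_prog {I : Type} {k s W : ℕ} {L : (I → ZMod 2) → Prop} (h : InNP (ByLBP I k s) W L) :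
    ∃ P : Prog (I → ZMod 2), P.size ≤ 2 ^ W * s + 2 ∧ (∀ x, P.Acc x ↔ L x) ∧
      ∀ x, P.Acc x → P.AccTop k x ∨ P.AccBot k x := by
  obtain ⟨Q, hQ, hL⟩ := h
  choose P hP using hQ
  have key : ∀ x, (∃ w, (P w).Accepts x) → (union P).AccTop k x ∨ (union P).AccBot k x := by
    rintro x ⟨w, hw⟩
    rcases (hP w).1 with h | h
    · exact Or.inl (union_top P x w hw (h x))
    · exact Or.inr (union_bot P x w hw (h x))
  refine ⟨union P, ?_, fun x => ?_, fun x hx => key x (union_acc P x hx)⟩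
  · have := union_size P fun w => (hP w).2.1
    rwa [Fintype.card_fin] at this
  · rw [hL]
    constructor
    · intro hx
      obtain ⟨w, hw⟩ := union_acc P x hx
      exact ⟨w, ((hP w).2.2 x).mpr hw⟩
    · rintro ⟨w, hw⟩
      rcases key x ⟨w, ((hP w).2.2 x).mp hw⟩ with h | h
      · exact accTop_acc _ h
      · exact accBot_acc _ h

lemma inCoNP_compl {I : Type} {k s W : ℕ} {L : (I → ZMod 2) → Prop}
    (h : InCoNP (ByLBP I k s) W L) : InNP (ByLBP I k s) W fun x => ¬ L x := by
  obtain ⟨Q, hQ, hL⟩ := h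
  refine ⟨fun w x => ¬ Q w x, fun w => (hQ w).compl, fun x => ?_⟩
  show ¬ L x ↔ ∃ w, ¬ Q w x
  rw [hL]
  exact not_forall

/-- **The lower bound for the NP and coNP modes.** -/
theorem pol_np (t m k s W : ℕ) (hm : 0 < m) (ht : 7 * m + 3 * k + 4 ≤ t)
    (h : InNP (ByLBP (Option (Fin (t + m) ⊕ Fin (t + m))) k s) W (PolZero t m) ∨
      InCoNP (ByLBP (Option (Fin (t + m) ⊕ Fin (t + m))) k s) W (PolZero t m)) :
    2 ^ m ≤ 24 * (∑ i ∈ Finset.range (k + 2), (2 * (t + m) + 1).choose i) * (2 ^ W * s + 2) := by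
  rcases h with h | h
  · obtain ⟨P, h1, h2, h3⟩ := np_prog h
    exact (pol_lower t m k hm ht P (Or.inl h2) h3).trans (Nat.mul_le_mul_left _ h1)
  · obtain ⟨P, h1, h2, h3⟩ := np_prog (inCoNP_compl h)
    exact (pol_lower t m k hm ht P (Or.inr h2) h3).trans (Nat.mul_le_mul_left _ h1)

end Pool.Agent.WRA
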