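import Pool.Agent.WRA.Thr
import Pool.Agent.WRL.FamN

set_option autoImplicit false

/-!
# The function with a polarity bit in PP mode
-/

namespace Pool.Agent.WRA

open Module Finset
open Pool.Agent.WRL
open Pool.Agent.UM (InPP InParity InPSPACE InGap)

/-- The function with a polarity bit: the input consists of a bit and of two polynomials of degree
less than `t + m`; the bit is `1` if and only if the coefficients of `X ^ t, …, X ^ (t + m - 1)` of
the product of the polynomials vanish. -/
def PolZero (t m : ℕ) (z : Option (Fin (t + m) ⊕ Fin (t + m)) → ZMod 2) : Prop :=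
  z none = 1 ↔ CoeffZero t m fun i => z (some i)

namespace UP

variable {t m : ℕ}

/-- The pair of variables with the first index `a` whose product is in the coefficient `t + j`. -/
def blk (t m : ℕ) (j : Fin m) (a : Fin (t + m)) : List (Option (Fin (t + m) ⊕ Fin (t + m))) :=
  if h : (a : ℕ) ≤ t + j ∧ t + (j : ℕ) - a < t + m then
    [some (Sum.inl a), some (Sum.inr ⟨t + j - a, h.2⟩)] else []

/-- The product of this pair. -/
def val (j : Fin m) (z : Option (Fin (t + m) ⊕ Fin (t + m)) → ZMod 2) (a : Fin (t + m)) : ZMod 2 :=
  if h : (a : ℕ) ≤ t + j ∧ t + (j : ℕ) - a < t + m then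
    z (some (Sum.inl a)) * z (some (Sum.inr ⟨t + j - a, h.2⟩)) else 0

/-- The order of the variables. -/
def lst (t m : ℕ) (j : Fin m) : List (Option (Fin (t + m) ⊕ Fin (t + m))) :=
  none :: (List.finRange (t + m)).flatMap (blk t m j)

/-- The update of the state. -/
def upd : Option (Fin (t + m) ⊕ Fin (t + m)) → ZMod 2 × ZMod 2 → ZMod 2 → ZMod 2 × ZMod 2
  | none, q, b => (q.1 + b, q.2)
  | some (Sum.inl _), q, b => (q.1, b)
  | some (Sum.inr _), q, b => (q.1 + q.2 * b, 0)

lemma mem_blk {j : Fin m} {a : Fin (t + m)} {i : Option (Fin (t + m) ⊕ Fin (t + m))}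
    (h : i ∈ blk t m j a) : i = some (Sum.inl a) ∨
      ∃ b : Fin (t + m), i = some (Sum.inr b) ∧ (a : ℕ) + b = t + j := by
  unfold blk at h
  split_ifs at h with h1
  · simp only [List.mem_cons, List.not_mem_nil, or_false] at h
    rcases h with h | h
    · exact Or.inl h
    · exact Or.inr ⟨_, h, by simp only; omega⟩
  · simp at h

lemma nodup_lst (j : Fin m) : (lst t m j).Nodup := by
  unfold lst
  rw [List.nodup_cons]
  constructor
  · rw [List.mem_flatMap]
    rintro ⟨a, -, h⟩
    rcases mem_blk h with h | ⟨b, h, -⟩ <;> cases h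
  · rw [List.nodup_flatMap]
    refine ⟨fun a _ => ?_, ?_⟩
    · unfold blk
      split_ifs <;> simp
    · refine (List.nodup_finRange _).pairwise_of_forall_ne fun a _ a' _ hne => ?_
      intro i hi hi'
      rcases mem_blk hi with h | ⟨b, h, hb⟩ <;> rcases mem_blk hi' with h' | ⟨b', h', hb'⟩
      · rw [h] at h'
        exact hne (Sum.inl.inj (Option.some.inj h'))
      · rw [h] at h'
        cases h'
      · rw [h] at h'
        cases h'
      · rw [h] at h'
        have h1 : b = b' := Sum.inr.inj (Option.some.inj h')
        subst h1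
        exact hne (Fin.ext (by omega))

lemma length_lst (j : Fin m) : (lst t m j).length ≤ 2 * (t + m) + 1 := by
  unfold lst
  rw [List.length_cons, List.length_flatMap]
  have h1 : ((List.finRange (t + m)).map fun a => (blk t m j a).length).sum ≤
      ((List.finRange (t + m)).map fun _ => 2).sum := by
    apply List.sum_le_sum
    intro a _
    unfold blk
    split_ifs <;> simp
  have h2 : ((List.finRange (t + m)).map fun _ => 2).sum = 2 * (t + m) := by
    simp [mul_comm]
  rw [h2] at h1
  exact Nat.succ_le_succ h1

lemma fin_blk (j : Fin m) (z : Option (Fin (t + m) ⊕ Fin (t + m)) → ZMod 2) (a : Fin (t + m))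
    (q : ZMod 2 × ZMod 2) : (fin upd z q (blk t m j a)).1 = q.1 + val j z a := by
  unfold blk val
  split_ifs with h
  · rfl
  · show q.1 = q.1 + 0
    rw [add_zero]

lemma fin_flat (j : Fin m) (z : Option (Fin (t + m) ⊕ Fin (t + m)) → ZMod 2)
    (L : List (Fin (t + m))) : ∀ q : ZMod 2 × ZMod 2,
    (fin upd z q (L.flatMap (blk t m j))).1 = q.1 + (L.map (val j z)).sum := by
  induction L with
  | nil =>
    intro q
    show q.1 = q.1 + 0
    rw [add_zero]
  | cons a L ih =>
    intro q
    rw [List.flatMap_cons, List.map_cons, List.sum_cons, ← add_assoc, ← fin_blk j z a q, ← ih]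
    unfold fin
    rw [List.foldl_append]

lemma sum_val (j : Fin m) (z : Option (Fin (t + m) ⊕ Fin (t + m)) → ZMod 2) :
    ∑ a, val j z a = qn (cn t j) fun i => z (some i) := by
  unfold qn
  refine Finset.sum_congr rfl fun a _ => ?_
  unfold val
  split_ifs with h
  · rw [Finset.sum_eq_single (⟨t + j - a, h.2⟩ : Fin (t + m))]
    · unfold cn
      rw [if_pos (by simp only; omega), one_mul]
    · intro b _ hb
      unfold cn
      rw [if_neg, zero_mul]
      intro h1
      exact hb (Fin.ext (by simp only; omega))
    · intro h1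
      exact absurd (Finset.mem_univ _) h1
  · symm
    refine Finset.sum_eq_zero fun b _ => ?_
    unfold cn
    rw [if_neg, zero_mul]
    intro h1
    exact h ⟨by omega, by have := b.2; omega⟩

lemma fin_lst (j : Fin m) (z : Option (Fin (t + m) ⊕ Fin (t + m)) → ZMod 2) :
    (fin upd z (0, 0) (lst t m j)).1 = z none + qn (cn t j) fun i => z (some i) := by
  rw [← sum_val, Fin.sum_univ_def]
  have h1 := fin_flat j z (List.finRange (t + m)) (0 + z none, 0)
  rw [zero_add] at h1
  rw [← h1]
  unfold lst fin
  rw [List.foldl_cons]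
  show (List.foldl _ (0 + z none, 0) _).1 = _
  rw [zero_add]

/-- The programs for the single coefficients. -/
lemma byOrd_coeff (j : Fin m) : ByOrd (Option (Fin (t + m) ⊕ Fin (t + m))) (8 * (t + m + 1))
    fun z => z none + (qn (cn t j) fun i => z (some i)) = 1 := by
  refine byOrd_obl (Q := ZMod 2 × ZMod 2) (lst t m j) upd (0, 0) (fun q => decide (q.1 = 1))
    (nodup_lst j) ?_ fun z => ?_
  · rw [Fintype.card_prod, ZMod.card]
    have := length_lst (t := t) j
    omega
  · rw [decide_eq_true_iff, fin_lst]

lemma byOrd_pol (hm : 0 < m) : ByOrd (Option (Fin (t + m) ⊕ Fin (t + m))) (8 * (t + m + 1))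
    fun z => z none = 0 := by
  refine byOrd_obl (Q := ZMod 2) [none] (fun _ _ b => b) 0 (fun q => decide (q = 0))
    (List.nodup_singleton _) ?_ fun z => ?_
  · rw [ZMod.card, List.length_singleton]
    omega
  · rw [decide_eq_true_iff]
    rfl

lemma add_one_eq (a : ZMod 2) : 1 + a = 1 ↔ a = 0 := by
  revert a
  decide

lemma count_all {m : ℕ} {p : Fin m → Prop} [DecidablePred p] :
    (m ≤ ∑ i : Fin m, if p i then 1 else 0) ↔ ∀ i, p i := by
  rw [← Finset.card_filter]
  constructor
  · intro h i
    have h1 : (Finset.univ.filter fun i => p i) = Finset.univ := by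
      apply Finset.eq_univ_of_card
      rw [Fintype.card_fin]
      refine le_antisymm ((Finset.card_le_univ _).trans (by rw [Fintype.card_fin])) h
    have h2 := Finset.mem_univ i
    rw [← h1, Finset.mem_filter] at h2
    exact h2.2
  · intro h
    rw [Finset.filter_true_of_mem fun i _ => h i, Finset.card_univ, Fintype.card_fin]

lemma count_some {m : ℕ} (hm : 0 < m) {p : Fin m → Prop} [DecidablePred p] :
    (m ≤ (∑ i : Fin m, if p i then 1 else 0) + (m - 1)) ↔ ∃ i, p i := by
  rw [← Finset.card_filter]
  have h1 : (m ≤ (Finset.univ.filter fun i => p i).card + (m - 1)) ↔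
      0 < (Finset.univ.filter fun i => p i).card := by omega
  rw [h1, Finset.card_pos]
  constructor
  · rintro ⟨i, hi⟩
    exact ⟨i, (Finset.mem_filter.mp hi).2⟩
  · rintro ⟨i, hi⟩
    exact ⟨i, Finset.mem_filter.mpr ⟨Finset.mem_univ _, hi⟩⟩

end UP

open UP in
/-- The function with the polarity bit is in PP mode. -/
theorem pol_pp (t m : ℕ) (hm : 0 < m) :
    InPP (ByOrd (Option (Fin (t + m) ⊕ Fin (t + m))) (8 * (t + m + 1))) (Nat.clog 2 (4 * m))
      (PolZero t m) := by
  classical
  let g : Fin (m + (m - 1)) → (Option (Fin (t + m) ⊕ Fin (t + m)) → ZMod 2) → Prop := fun i z =>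
    if h : (i : ℕ) < m then z none + (qn (cn t (⟨i, h⟩ : Fin m)) fun i => z (some i)) = 1
    else z none = 0
  have hg : ∀ i, ByOrd (Option (Fin (t + m) ⊕ Fin (t + m))) (8 * (t + m + 1)) (g i) := by
    intro i
    by_cases h : (i : ℕ) < m
    · have h1 : g i = fun z => z none + (qn (cn t (⟨i, h⟩ : Fin m)) fun i => z (some i)) = 1 := by
        funext z
        simp only [g, dif_pos h]
      rw [h1]
      exact byOrd_coeff _
    · have h1 : g i = fun z => z none = 0 := by
        funext z
        simp only [g, dif_neg h]
      rw [h1]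
      exact byOrd_pol hm
  have hW : 2 * (m + (m - 1)) ≤ 2 ^ Nat.clog 2 (4 * m) :=
    le_trans (by omega) (Nat.le_pow_clog (by norm_num) _)
  have h := pp_threshold (fun b => byOrd_const (by omega) b) g hg (θ := m) hm (by omega) hW
  have h1 : PolZero t m = fun z => m ≤ Nat.card {i // g i z} := by
    funext z
    have h2 : Nat.card {i // g i z} =
        (∑ i : Fin m, if z none + (qn (cn t i) fun i => z (some i)) = 1 then 1 else 0) +
          ∑ i : Fin (m - 1), if z none = 0 then 1 else 0 := by
      rw [Nat.card_eq_fintype_card, Fintype.card_subtype, Finset.card_filter, Fin.sum_univ_add]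
      congr 1
      · refine Finset.sum_congr rfl fun i _ => ?_
        have h3 : g (Fin.castAdd (m - 1) i) z ↔
            z none + (qn (cn t i) fun i => z (some i)) = 1 := by
          simp only [g]
          rw [dif_pos (show ((Fin.castAdd (m - 1) i : Fin (m + (m - 1))) : ℕ) < m from i.2)]
          rfl
        simp only [h3]
      · refine Finset.sum_congr rfl fun i _ => ?_
        have h3 : g (Fin.natAdd m i) z ↔ z none = 0 := by
          simp only [g]
          rw [dif_neg]
          show ¬ (m + (i : ℕ) < m)
          omega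
        simp only [h3]
    rw [h2, eq_iff_iff]
    unfold PolZero
    rw [coeffZero_iff]
    rcases zmod_cases (z none) with hz | hz
    · rw [hz]
      simp only [zero_add, if_true, Finset.sum_const, Finset.card_univ, Fintype.card_fin,
        smul_eq_mul, mul_one]
      rw [count_some hm]
      constructor
      · intro h4
        by_contra hcon
        push_neg at hcon
        have h5 : (0 : ZMod 2) = 1 := h4.mpr fun j =>
          (zmod_cases _).resolve_right (hcon j)
        exact absurd h5 (by decide)
      · rintro ⟨j, hj⟩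
        constructor
        · intro h5
          exact absurd h5 (by decide)
        · intro h5
          rw [h5 j] at hj
          exact absurd hj (by decide)
    · rw [hz]
      have h4 : ∀ a : ZMod 2, 1 + a = 1 ↔ a = 0 := add_one_eq
      simp only [h4, one_ne_zero, if_false, Finset.sum_const_zero, add_zero, true_iff]
      rw [count_all]
  rw [h1]
  exact h

end Pool.Agent.WRA
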