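import Pool.Agent.WRA.Obl

set_option autoImplicit false

/-!
# Thresholds in PP mode, and the inclusions between the modes
-/

namespace Pool.Agent.WRA

open Module Finset
open Pool.Agent.WRL
open Pool.Agent.UM (InPP InParity InPSPACE InGap)

variable {I A : Type}

/-- NP mode with `W` bits over the class `𝓒`: some of `2 ^ W` members of the class accepts. -/
def InNP (𝓒 : ((I → A) → Prop) → Prop) (W : ℕ) (L : (I → A) → Prop) : Prop :=
  ∃ P : Fin (2 ^ W) → (I → A) → Prop, (∀ w, 𝓒 (P w)) ∧ ∀ x, L x ↔ ∃ w, P w x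

/-- coNP mode with `W` bits over the class `𝓒`: all of `2 ^ W` members of the class accept. -/
def InCoNP (𝓒 : ((I → A) → Prop) → Prop) (W : ℕ) (L : (I → A) → Prop) : Prop :=
  ∃ P : Fin (2 ^ W) → (I → A) → Prop, (∀ w, 𝓒 (P w)) ∧ ∀ x, L x ↔ ∀ w, P w x

/-- Thresholds of few members of a class are in PP mode. -/
theorem pp_threshold {𝓒 : ((I → A) → Prop) → Prop} (hc : ∀ b : Prop, 𝓒 fun _ => b) {Y W θ : ℕ}
    (g : Fin Y → (I → A) → Prop) (hg : ∀ i, 𝓒 (g i)) (hθ : 1 ≤ θ) (hθY : θ ≤ Y)
    (hY : 2 * Y ≤ 2 ^ W) : InPP 𝓒 W fun x => θ ≤ Nat.card {i // g i x} := by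
  classical
  obtain ⟨M, hM⟩ : ∃ M, 2 ^ W = 2 * M := by
    rcases W with _ | W
    · exfalso
      rw [pow_zero] at hY
      omega
    · exact ⟨2 ^ W, by rw [pow_succ]; ring⟩
  let p : ℕ → (I → A) → Prop := fun w x => if h : w < Y then g ⟨w, h⟩ x else w < Y + (M + 1 - θ)
  refine ⟨fun w => p w, fun w => ?_, fun x => ?_⟩
  · by_cases h : (w : ℕ) < Y
    · have h1 : p w = g ⟨w, h⟩ := by
        funext x
        simp only [p, dif_pos h]
      show 𝓒 (p w)
      rw [h1]
      exact hg _
    · have h1 : p w = fun _ => (w : ℕ) < Y + (M + 1 - θ) := by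
        funext x
        simp only [p, dif_neg h]
      show 𝓒 (p w)
      rw [h1]
      exact hc _
  · have h1 : Nat.card {w : Fin (2 ^ W) // p w x} =
        ∑ w ∈ Finset.range (2 ^ W), if p w x then 1 else 0 := by
      rw [Nat.card_eq_fintype_card, Fintype.card_subtype, Finset.card_filter,
        Finset.sum_range]
    have h2 : Nat.card {i // g i x} = ∑ w ∈ Finset.range Y, if p w x then 1 else 0 := by
      rw [Nat.card_eq_fintype_card, Fintype.card_subtype, Finset.card_filter, Finset.sum_range]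
      refine Finset.sum_congr rfl fun i _ => ?_
      have h3 : p i x ↔ g i x := by
        simp only [p, dif_pos i.2]
      simp only [h3]
    obtain ⟨B, hB⟩ : ∃ B, 2 ^ W = Y + ((M + 1 - θ) + B) := ⟨2 ^ W - (Y + (M + 1 - θ)), by omega⟩
    have h3 : ∑ w ∈ Finset.range (2 ^ W), (if p w x then 1 else 0) =
        Nat.card {i // g i x} + (M + 1 - θ) := by
      rw [hB, Finset.sum_range_add, ← h2, Finset.sum_range_add]
      have h4 : ∑ w ∈ Finset.range (M + 1 - θ), (if p (Y + w) x then 1 else 0) = M + 1 - θ := by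
        rw [Finset.sum_congr rfl fun w hw => if_pos (show p (Y + w) x by
          have := Finset.mem_range.mp hw
          simp only [p]
          rw [dif_neg (by omega)]
          omega), Finset.sum_const, Finset.card_range, smul_eq_mul, mul_one]
      have h5 : ∑ w ∈ Finset.range B, (if p (Y + ((M + 1 - θ) + w)) x then 1 else 0) = 0 :=
        Finset.sum_eq_zero fun w _ => if_neg (show ¬ p (Y + ((M + 1 - θ) + w)) x by
          simp only [p]
          rw [dif_neg (by omega)]
          omega)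
      rw [h4, h5, add_zero]
    rw [h1, h3]
    omega

/-- NP mode is contained in PP mode. -/
theorem np_pp {𝓒 : ((I → A) → Prop) → Prop} (hc : ∀ b : Prop, 𝓒 fun _ => b) {W : ℕ}
    {L : (I → A) → Prop} (h : InNP 𝓒 W L) : InPP 𝓒 (W + 1) L := by
  classical
  obtain ⟨P, hP, hL⟩ := h
  have h1 := pp_threshold hc (Y := 2 ^ W) (W := W + 1) (θ := 1) P hP le_rfl Nat.one_le_two_pow
    (by rw [pow_succ]; omega)
  have h2 : L = fun x => 1 ≤ Nat.card {i // P i x} := by
    funext x
    rw [hL, Nat.succ_le_iff, Nat.card_pos_iff, eq_iff_iff]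
    exact ⟨fun ⟨w, hw⟩ => ⟨⟨⟨w, hw⟩⟩, inferInstance⟩, fun ⟨⟨w, hw⟩, _⟩ => ⟨w, hw⟩⟩
  rw [h2]
  exact h1

/-- coNP mode is contained in PP mode. -/
theorem conp_pp {𝓒 : ((I → A) → Prop) → Prop} (hc : ∀ b : Prop, 𝓒 fun _ => b) {W : ℕ}
    {L : (I → A) → Prop} (h : InCoNP 𝓒 W L) : InPP 𝓒 (W + 1) L := by
  classical
  obtain ⟨P, hP, hL⟩ := h
  have h1 := pp_threshold hc (Y := 2 ^ W) (W := W + 1) (θ := 2 ^ W) P hP Nat.one_le_two_pow le_rfl
    (by rw [pow_succ]; omega)
  have h2 : L = fun x => 2 ^ W ≤ Nat.card {i // P i x} := by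
    funext x
    rw [hL, eq_iff_iff]
    constructor
    · intro h
      have h3 : Nat.card {i // P i x} = 2 ^ W := by
        rw [Nat.card_eq_fintype_card, Fintype.card_subtype,
          Finset.filter_true_of_mem fun w _ => h w, Finset.card_univ, Fintype.card_fin]
      exact h3.ge
    · intro h w
      by_contra hw
      have h3 : Nat.card {i // P i x} < 2 ^ W := by
        rw [Nat.card_eq_fintype_card]
        have h4 := Fintype.card_subtype_lt (p := fun i => P i x) (x := w) hw
        rwa [Fintype.card_fin] at h4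
      omega
  rw [h2]
  exact h1

/-- A class of programs contains the constants if it contains anything. -/
lemma byLBP_const' {I : Type} [Finite I] {k s : ℕ} (hs : 1 ≤ s) (b : Prop) :
    ByLBP I k s fun _ => b := byLBP_const hs b

/-- The inclusions for the programs. -/
theorem inclusions (I : Type) [Finite I] (k s W : ℕ) (L : (I → ZMod 2) → Prop) :
    (InNP (ByLBP I k s) W L → InPP (ByLBP I k s) (W + 1) L) ∧
    (InCoNP (ByLBP I k s) W L → InPP (ByLBP I k s) (W + 1) L) ∧
    (InPP (ByLBP I k s) W L → InPSPACE (ByLBP I k s) (W * (W + 3) / 2) L) := by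
  have h0 : 0 < 2 ^ W := by positivity
  refine ⟨fun h => ?_, fun h => ?_, fun h => ?_⟩
  · have hs : 1 ≤ s := by
      obtain ⟨P, hP, -⟩ := h
      exact (hP ⟨0, h0⟩).size_pos
    exact np_pp (fun b => byLBP_const hs b) h
  · have hs : 1 ≤ s := by
      obtain ⟨P, hP, -⟩ := h
      exact (hP ⟨0, h0⟩).size_pos
    exact conp_pp (fun b => byLBP_const hs b) h
  · exact Pool.Agent.UM.MODES.pp (fun _ b h => byLBP_const h.size_pos b) h

end Pool.Agent.WRA
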