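import Pool.Agent.WRA.Path

set_option autoImplicit false

/-!
# The correlation with a nearly weakly read-once program, top version
-/

namespace Pool.Agent.WRA

open Module
open Pool.Agent.WRL

variable {E : Type} [AddCommGroup E] [Module (ZMod 2) E] [Fintype E]

lemma finrank_span_one (l : Dual (ZMod 2) E) :
    finrank (ZMod 2) (Submodule.span (ZMod 2) {l}) ≤ 1 := by
  have := finrank_span_le_card (R := ZMod 2) ({l} : Set (Dual (ZMod 2) E))
  rwa [Set.toFinset_singleton, Finset.card_singleton] at this

namespace LBP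

variable (P : LBP E)

/-- The forms tested from `v` on. -/
lemma tst_bound (x : E) : ∀ (n : ℕ) (v : P.V), P.height v = n → P.Visits x v →
    ∃ D : Submodule (ZMod 2) (Dual (ZMod 2) E),
      finrank (ZMod 2) D + finrank (ZMod 2) (P.Pre v) ≤ finrank (ZMod 2) E ∧
      P.Tst v x ≤ D ⊔ P.RedTop x := by
  have : FiniteDimensional (ZMod 2) E := Module.Finite.of_finite
  have hdim : finrank (ZMod 2) (Dual (ZMod 2) E) = finrank (ZMod 2) E :=
    Subspace.dual_finrank_eq
  intro n
  induction n using Nat.strong_induction_on with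
  | _ n ih =>
    intro v hv hvis
    have hle : finrank (ZMod 2) (P.Pre v) ≤ finrank (ZMod 2) E := by
      rw [← hdim]
      exact Submodule.finrank_le _
    by_cases h : P.leaf v = none
    · have hh : P.height (P.step x v) < n := by
        rw [← hv, P.step_inner h]
        exact P.dec _ _ h
      obtain ⟨D, hD1, hD2⟩ := ih _ hh _ rfl (P.visits_step hvis)
      have hmono : P.Pre v ≤ P.Pre (P.step x v) := P.pre_mono (P.reach_step x v)
      by_cases hred : P.form v ∈ P.Pre v
      · refine ⟨D, ?_, ?_⟩
        · have := Submodule.finrank_mono hmono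
          omega
        · refine P.tst_inner.trans (sup_le ?_ hD2)
          rw [Submodule.span_singleton_le_iff_mem]
          exact Submodule.mem_sup_right (Submodule.subset_span ⟨v, hvis, h, hred, rfl⟩)
      · have hmem : P.form v ∈ P.Pre (P.step x v) := by
          rw [P.step_inner h]
          exact P.mem_pre (P.visits_reach hvis) h Relation.ReflTransGen.refl
        have hlt : P.Pre v < P.Pre (P.step x v) :=
          lt_of_le_of_ne hmono fun h1 => hred (h1 ▸ hmem)
        refine ⟨Submodule.span (ZMod 2) {P.form v} ⊔ D, ?_, ?_⟩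
        · have h1 := Submodule.finrank_lt_finrank_of_lt hlt
          have h2 := Submodule.finrank_add_le_finrank_add_finrank
            (Submodule.span (ZMod 2) {P.form v}) D
          have h3 := finrank_span_one (P.form v)
          omega
        · refine P.tst_inner.trans (sup_le ?_ ?_)
          · exact le_sup_left.trans le_sup_left
          · exact hD2.trans (sup_le_sup_right le_sup_right _)
    · refine ⟨⊥, ?_, ?_⟩
      · rw [finrank_bot, zero_add]
        exact hle
      · rw [P.tst_leaf h]
        exact bot_le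

/-- The cut: the last node `v` of the path with `finrank (Pre v) ≤ r`. -/
def Cut (r : ℕ) (x : E) (v : P.V) : Prop :=
  P.Visits x v ∧ finrank (ZMod 2) (P.Pre v) ≤ r ∧
    (P.leaf v ≠ none ∨ r < finrank (ZMod 2) (P.Pre (P.step x v)))

omit [Fintype E] in
lemma exists_cut (r : ℕ) (x : E) : ∃ v, P.Cut r x v := by
  have key : ∀ (n : ℕ) (v : P.V), P.height v = n → P.Visits x v →
      finrank (ZMod 2) (P.Pre v) ≤ r → ∃ w, P.Cut r x w := by
    intro n
    induction n using Nat.strong_induction_on with
    | _ n ih =>
      intro v hv hvis hr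
      by_cases h : P.leaf v = none
      · by_cases h1 : r < finrank (ZMod 2) (P.Pre (P.step x v))
        · exact ⟨v, hvis, hr, Or.inr h1⟩
        · refine ih _ ?_ _ rfl (P.visits_step hvis) (by omega)
          rw [← hv, P.step_inner h]
          exact P.dec _ _ h
      · exact ⟨v, hvis, hr, Or.inl h⟩
  refine key _ P.start rfl ⟨0, rfl⟩ ?_
  rw [P.pre_start, finrank_bot]
  exact Nat.zero_le _

lemma cut_later {r : ℕ} {x : E} {v : P.V} (h : P.Cut r x v) (s : ℕ)
    (h2 : finrank (ZMod 2) (P.Pre ((P.step x)^[s] v)) ≤ r) : (P.step x)^[s] v = v := by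
  have : FiniteDimensional (ZMod 2) E := Module.Finite.of_finite
  rcases h.2.2 with h3 | h3
  · exact P.iter_leaf h3 s
  · cases s with
    | zero => rfl
    | succ s =>
      exfalso
      rw [Function.iterate_succ_apply] at h2
      have h4 := Submodule.finrank_mono (P.pre_mono (P.reach_iter x (P.step x v) s))
      omega

lemma cut_unique {r : ℕ} {x : E} {v w : P.V} (hv : P.Cut r x v) (hw : P.Cut r x w) : v = w := by
  obtain ⟨i, hi⟩ := hv.1
  obtain ⟨j, hj⟩ := hw.1
  rcases le_total i j with hij | hij
  · have h1 : (P.step x)^[j - i] v = w := by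
      rw [← hi, ← Function.iterate_add_apply, Nat.sub_add_cancel hij, hj]
    have h2 := P.cut_later hv (j - i) (by rw [h1]; exact hw.2.1)
    rw [← h2, h1]
  · have h1 : (P.step x)^[i - j] w = v := by
      rw [← hj, ← Function.iterate_add_apply, Nat.sub_add_cancel hij, hi]
    have h2 := P.cut_later hw (i - j) (by rw [h1]; exact hv.2.1)
    rw [← h2, h1]

/-- The condition on the part of the path of `x` after `v`. -/
def After (r c : ℕ) (v : P.V) (x : E) : Prop :=
  (P.leaf v ≠ none ∨ r < finrank (ZMod 2) (P.Pre (P.step x v))) ∧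
    (∃ t : ℕ, P.leaf ((P.step x)^[t] v) = some true) ∧ finrank (ZMod 2) (P.Tst v x) ≤ c

lemma after_congr {r c : ℕ} {v : P.V} {x y : E} (h : y ∈ cell (P.Tst v x) x) :
    P.After r c v y ↔ P.After r c v x := by
  have h1 : P.step y v = P.step x v := P.iter_congr h 1
  unfold After
  rw [h1, P.tst_congr h]
  simp only [P.iter_congr h]

lemma tst_le {a k : ℕ} (ha : a ≤ finrank (ZMod 2) E) {x : E}
    (hk : finrank (ZMod 2) (P.RedTop x) ≤ k) {v : P.V}
    (h : P.Cut (finrank (ZMod 2) E - a) x v) : finrank (ZMod 2) (P.Tst v x) ≤ a + k := by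
  have : FiniteDimensional (ZMod 2) E := Module.Finite.of_finite
  obtain ⟨h1, h2, h3⟩ := h
  by_cases h4 : P.leaf v = none
  · have h5 := h3.resolve_left fun h6 => h6 h4
    obtain ⟨D, hD1, hD2⟩ := P.tst_bound x _ _ rfl (P.visits_step h1)
    have h6 : P.Tst v x ≤ Submodule.span (ZMod 2) {P.form v} ⊔ (D ⊔ P.RedTop x) :=
      P.tst_inner.trans (sup_le_sup_left hD2 _)
    have h7 := Submodule.finrank_mono h6
    have h8 := Submodule.finrank_add_le_finrank_add_finrank
      (Submodule.span (ZMod 2) {P.form v}) (D ⊔ P.RedTop x)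
    have h9 := Submodule.finrank_add_le_finrank_add_finrank D (P.RedTop x)
    have h10 := finrank_span_one (P.form v)
    omega
  · rw [P.tst_leaf h4, finrank_bot]
    exact Nat.zero_le _

/-- **The correlation bound, top version.** -/
theorem corr_top {f : E → ZMod 2} {a k : ℕ} {ε δ : ℝ} (hf : DirExt f (2 * (a + k)) ε)
    (hε : 0 ≤ ε) (ha : a ≤ finrank (ZMod 2) E) (hδ0 : 0 ≤ δ) (hδ : (2 ^ a)⁻¹ + ε ≤ δ ^ 2)
    (hk : ∀ x, finrank (ZMod 2) (P.RedTop x) ≤ k) [DecidablePred P.Accepts] :
    |∑ x, if P.Accepts x then sg (f x) else 0| ≤ P.size * (Fintype.card E * δ) := by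
  classical
  have : FiniteDimensional (ZMod 2) E := Module.Finite.of_finite
  let _ := P.fin
  set r := finrank (ZMod 2) E - a with hr
  have hsplit : ∀ x, (if P.Accepts x then sg (f x) else 0) =
      ∑ v, if P.Cut r x v then (if P.Accepts x then sg (f x) else 0) else 0 := by
    intro x
    obtain ⟨v, hv⟩ := P.exists_cut r x
    rw [Finset.sum_eq_single v]
    · rw [if_pos hv]
    · intro w _ hw
      rw [if_neg fun h => hw (P.cut_unique h hv)]
    · intro h
      exact absurd (Finset.mem_univ v) h
  rw [Finset.sum_congr rfl fun x _ => hsplit x, Finset.sum_comm]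
  refine (Finset.abs_sum_le_sum_abs _ _).trans ?_
  have hterm : ∀ v : P.V, |∑ x, if P.Cut r x v then (if P.Accepts x then sg (f x) else 0) else 0| ≤
      Fintype.card E * δ := by
    intro v
    have hnn : (0 : ℝ) ≤ Fintype.card E * δ := mul_nonneg (Nat.cast_nonneg _) hδ0
    by_cases hv : finrank (ZMod 2) (P.Pre v) ≤ r
    · have h1 : ∀ x, (if P.Cut r x v then (if P.Accepts x then sg (f x) else 0) else 0) =
          if P.Visits x v then (if P.After r (a + k) v x then sg (f x) else 0) else 0 := by
        intro x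
        by_cases h2 : P.Visits x v
        · rw [if_pos h2]
          by_cases h3 : P.After r (a + k) v x
          · have h4 : P.Cut r x v := ⟨h2, hv, h3.1⟩
            rw [if_pos h3, if_pos h4, if_pos ((P.accepts_iff h2).2 h3.2.1)]
          · rw [if_neg h3]
            by_cases h4 : P.Cut r x v
            · rw [if_pos h4, if_neg]
              intro h5
              exact h3 ⟨h4.2.2, (P.accepts_iff h2).1 h5, P.tst_le ha (hk x) h4⟩
            · rw [if_neg h4]
        · rw [if_neg h2, if_neg fun h3 => h2 h3.1]
      rw [Finset.sum_congr rfl fun x _ => h1 x]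
      have h2 := core (c := a + k) (T := P.Tst v) (P := P.After r (a + k) v) hf hε
        (fun x y h => P.tst_congr h) (fun x y h => P.after_congr h) (fun x h => h.2.2) (P.Pre v)
        (fun x => P.Visits x v) (fun x y h => ⟨fun h3 => P.visits_congr (mem_cell_comm.1 h) h3,
          fun h3 => P.visits_congr h h3⟩)
      have h3 : ((cell (P.Pre v) 0).card : ℝ)⁻¹ ≤ (2 ^ a)⁻¹ := by
        have h4 : ((cell (P.Pre v) (0 : E)).card : ℝ) * 2 ^ finrank (ZMod 2) (P.Pre v) =
            2 ^ finrank (ZMod 2) E := by exact_mod_cast card_cell (P.Pre v) 0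
        apply inv_anti₀ (by positivity)
        have h5 : (2 : ℝ) ^ a * 2 ^ finrank (ZMod 2) (P.Pre v) ≤ 2 ^ finrank (ZMod 2) E := by
          rw [← pow_add]
          exact pow_le_pow_right₀ (by norm_num) (by omega)
        rw [← h4] at h5
        exact le_of_mul_le_mul_right h5 (by positivity)
      apply abs_le_of_sq_le_sq _ hnn
      refine h2.trans ?_
      rw [mul_pow]
      apply mul_le_mul_of_nonneg_left _ (by positivity)
      linarith
    · rw [Finset.sum_eq_zero fun x _ => by rw [if_neg fun h => hv h.2.1], abs_zero]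
      exact hnn
  refine (Finset.sum_le_sum fun v _ => hterm v).trans (le_of_eq ?_)
  rw [Finset.sum_const, nsmul_eq_mul, Finset.card_univ]
  rfl

end LBP

end Pool.Agent.WRA
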