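import Pool.Agent.WRA.Core

set_option autoImplicit false

/-!
# The trace of a product of three field elements
-/

namespace Pool.Agent.WRA

open Module
open Pool.Agent.WRL

variable {n : ℕ}

/-- The field element with the coordinates `x` with respect to `α`. -/
noncomputable def elt (α : Fin n → GaloisField 2 n) (x : Fin n → ZMod 2) : GaloisField 2 n :=
  ∑ i, x i • α i

/-- The function: the trace of the product of three elements of the field with `2 ^ n` elements;
`α` is a basis of the field, the input consists of the coordinates of the three elements. -/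
noncomputable def tri (α : Fin n → GaloisField 2 n) (z : Fin 3 × Fin n → ZMod 2) : ZMod 2 :=
  Algebra.trace (ZMod 2) (GaloisField 2 n)
    (elt α (fun i => z (0, i)) * elt α (fun i => z (1, i)) * elt α (fun i => z (2, i)))

/-- The coordinate `j` as a linear map. -/
noncomputable def pr (α : Fin n → GaloisField 2 n) (j : Fin 3) :
    (Fin 3 × Fin n → ZMod 2) →ₗ[ZMod 2] GaloisField 2 n :=
  ∑ i, (LinearMap.proj (j, i) : (Fin 3 × Fin n → ZMod 2) →ₗ[ZMod 2] ZMod 2).smulRight (α i)

lemma pr_apply (α : Fin n → GaloisField 2 n) (j : Fin 3) (z : Fin 3 × Fin n → ZMod 2) :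
    pr α j z = elt α (fun i => z (j, i)) := by
  simp [pr, elt, LinearMap.sum_apply]

lemma tri_eq (α : Fin n → GaloisField 2 n) (z : Fin 3 × Fin n → ZMod 2) :
    tri α z = Algebra.trace (ZMod 2) (GaloisField 2 n) (pr α 0 z * pr α 1 z * pr α 2 z) := by
  rw [tri, pr_apply, pr_apply, pr_apply]

/-- The polar form of the derivative in the direction `u`. -/
noncomputable def polar (α : Fin n → GaloisField 2 n) (u : Fin 3 × Fin n → ZMod 2) :
    (Fin 3 × Fin n → ZMod 2) →ₗ[ZMod 2] Dual (ZMod 2) (Fin 3 × Fin n → ZMod 2) :=
  LinearMap.mk₂ (ZMod 2) (fun v x => Algebra.trace (ZMod 2) (GaloisField 2 n)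
      (pr α 0 u * (pr α 1 v * pr α 2 x + pr α 1 x * pr α 2 v) +
        pr α 1 u * (pr α 0 v * pr α 2 x + pr α 0 x * pr α 2 v) +
        pr α 2 u * (pr α 0 v * pr α 1 x + pr α 0 x * pr α 1 v)))
    (by
      intro v v' x
      rw [← map_add]
      congr 1
      simp only [map_add]
      ring)
    (by
      intro c v x
      rw [← map_smul]
      congr 1
      simp only [map_smul]
      simp only [Algebra.smul_def]
      ring)
    (by
      intro v x x'
      rw [← map_add]
      congr 1
      simp only [map_add]
      ring)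
    (by
      intro c v x
      rw [← map_smul]
      congr 1
      simp only [map_smul]
      simp only [Algebra.smul_def]
      ring)

lemma polar_apply (α : Fin n → GaloisField 2 n) (u v x : Fin 3 × Fin n → ZMod 2) :
    polar α u v x = Algebra.trace (ZMod 2) (GaloisField 2 n)
      (pr α 0 u * (pr α 1 v * pr α 2 x + pr α 1 x * pr α 2 v) +
        pr α 1 u * (pr α 0 v * pr α 2 x + pr α 0 x * pr α 2 v) +
        pr α 2 u * (pr α 0 v * pr α 1 x + pr α 0 x * pr α 1 v)) := rfl

lemma two_zero (a : GaloisField 2 n) : a + a = 0 := by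
  have h : (2 : GaloisField 2 n) = 0 := by
    have := CharP.cast_eq_zero (GaloisField 2 n) 2
    exact_mod_cast this
  rw [← two_mul, h, zero_mul]

/-- The derivative is a quadratic function. -/
lemma isQ_deriv (α : Fin n → GaloisField 2 n) (u : Fin 3 × Fin n → ZMod 2) :
    IsQ (fun x => tri α x + tri α (x + u)) (polar α u) := by
  intro v x
  simp only [tri_eq, polar_apply]
  rw [← sub_eq_zero]
  simp only [← map_add, ← map_sub]
  rw [← map_zero (Algebra.trace (ZMod 2) (GaloisField 2 n))]
  congr 1
  simp only [map_add, map_zero, zero_add, add_zero]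
  generalize pr α 0 u = a0
  generalize pr α 1 u = a1
  generalize pr α 2 u = a2
  generalize pr α 0 v = b0
  generalize pr α 1 v = b1
  generalize pr α 2 v = b2
  generalize pr α 0 x = c0
  generalize pr α 1 x = c1
  generalize pr α 2 x = c2
  have h : (2 : GaloisField 2 n) = 0 := by
    have := CharP.cast_eq_zero (GaloisField 2 n) 2
    exact_mod_cast this
  linear_combination (exp := 1) ((b0 + c0) * (b1 + c1) * (b2 + c2) - b0 * b1 * b2 -
    c0 * c1 * c2 - a0 * a1 * a2) * h

lemma elt_zero (α : Basis (Fin n) (ZMod 2) (GaloisField 2 n)) {x : Fin n → ZMod 2}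
    (h : elt α x = 0) : x = 0 :=
  funext fun i => (Fintype.linearIndependent_iff.1 α.linearIndependent) x h i

lemma trace_nondeg {a : GaloisField 2 n}
    (h : ∀ b, Algebra.trace (ZMod 2) (GaloisField 2 n) (a * b) = 0) : a = 0 := by
  have h1 := traceForm_nondegenerate (ZMod 2) (GaloisField 2 n)
  exact h1.1 a fun b => by rw [Algebra.traceForm_apply]; exact h b

/-- A point with two coordinates zero. -/
lemma exists_single (α : Basis (Fin n) (ZMod 2) (GaloisField 2 n)) (j : Fin 3)
    (b : GaloisField 2 n) : ∃ x : Fin 3 × Fin n → ZMod 2, pr α j x = b ∧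
      ∀ i, i ≠ j → pr α i x = 0 := by
  refine ⟨fun p => if p.1 = j then α.repr b p.2 else 0, ?_, fun i hi => ?_⟩
  · rw [pr_apply]
    simp only [if_true]
    rw [elt, α.sum_repr]
  · rw [pr_apply]
    simp [elt, hi]

/-- The radical of the derivative has the dimension at most `n`. -/
lemma finrank_polar (hn : n ≠ 0) (α : Basis (Fin n) (ZMod 2) (GaloisField 2 n))
    {u : Fin 3 × Fin n → ZMod 2} (hu : u ≠ 0) :
    finrank (ZMod 2) (LinearMap.ker (polar α u)) ≤ n := by
  -- the equations of the radical
  have key : ∀ v ∈ LinearMap.ker (polar α u), ∀ i j, i ≠ j →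
      pr α i u * pr α j v + pr α j u * pr α i v = 0 := by
    intro v hv
    have h0 : ∀ x, Algebra.trace (ZMod 2) (GaloisField 2 n)
      (pr α 0 u * (pr α 1 v * pr α 2 x + pr α 1 x * pr α 2 v) +
        pr α 1 u * (pr α 0 v * pr α 2 x + pr α 0 x * pr α 2 v) +
        pr α 2 u * (pr α 0 v * pr α 1 x + pr α 0 x * pr α 1 v)) = 0 := by
      intro x
      rw [← polar_apply, LinearMap.mem_ker.1 hv]
      rfl
    have h01 : pr α 0 u * pr α 1 v + pr α 1 u * pr α 0 v = 0 := by
      apply trace_nondeg
      intro b
      obtain ⟨x, hx, hx'⟩ := exists_single α 2 b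
      have h1 := h0 x
      rw [hx, hx' 0 (by decide), hx' 1 (by decide)] at h1
      rw [← h1]
      congr 1
      ring
    have h02 : pr α 0 u * pr α 2 v + pr α 2 u * pr α 0 v = 0 := by
      apply trace_nondeg
      intro b
      obtain ⟨x, hx, hx'⟩ := exists_single α 1 b
      have h1 := h0 x
      rw [hx, hx' 0 (by decide), hx' 2 (by decide)] at h1
      rw [← h1]
      congr 1
      ring
    have h12 : pr α 1 u * pr α 2 v + pr α 2 u * pr α 1 v = 0 := by
      apply trace_nondeg
      intro b
      obtain ⟨x, hx, hx'⟩ := exists_single α 0 b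
      have h1 := h0 x
      rw [hx, hx' 1 (by decide), hx' 2 (by decide)] at h1
      rw [← h1]
      congr 1
      ring
    intro i j hij
    fin_cases i <;> fin_cases j
    · exact absurd rfl hij
    · exact h01
    · exact h02
    · rw [add_comm]; exact h01
    · exact absurd rfl hij
    · exact h12
    · rw [add_comm]; exact h02
    · rw [add_comm]; exact h12
    · exact absurd rfl hij
  -- a coordinate of `u` is not zero
  obtain ⟨i, hi⟩ : ∃ i, pr α i u ≠ 0 := by
    by_contra hcon
    push Not at hcon
    apply hu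
    ext ⟨i, j⟩
    have h1 := hcon i
    rw [pr_apply] at h1
    exact congrFun (elt_zero α h1) j
  have hdim : finrank (ZMod 2) (GaloisField 2 n) = n := GaloisField.finrank 2 hn
  have h := finrank_le_of_map (pr α i) (LinearMap.ker (polar α u)) ⊥ ⊤ (fun _ _ => trivial) (by
    intro v hv h1
    rw [Submodule.mem_bot]
    ext ⟨j, l⟩
    have h2 : pr α j v = 0 := by
      by_cases hij : i = j
      · rw [← hij]; exact h1
      · have h3 := key v hv i j hij
        rw [h1, mul_zero, add_zero] at h3
        exact (mul_eq_zero.1 h3).resolve_left hi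
    rw [pr_apply] at h2
    exact congrFun (elt_zero α h2) l)
  rw [finrank_bot, finrank_top, zero_add, hdim] at h
  exact h

end Pool.Agent.WRA
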