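import Pool.Agent.WRA.Obl

set_option autoImplicit false

/-!
# The function `tri` in parity mode and in PSPACE mode
-/

namespace Pool.Agent.WRA

open Module Finset
open Pool.Agent.WRL
open Pool.Agent.UM (InPP InParity InPSPACE InGap)

variable {n : ℕ}

/-- The monomials of `tri`. -/
noncomputable def mon (α : Fin n → GaloisField 2 n) (q : Fin n × Fin n × Fin n)
    (z : Fin 3 × Fin n → ZMod 2) : ZMod 2 :=
  Algebra.trace (ZMod 2) (GaloisField 2 n) (α q.1 * α q.2.1 * α q.2.2) *
    (z (0, q.1) * z (1, q.2.1) * z (2, q.2.2))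

lemma tri_eq_mon (α : Fin n → GaloisField 2 n) (z : Fin 3 × Fin n → ZMod 2) :
    tri α z = ∑ q : Fin n × Fin n × Fin n, mon α q z := by
  unfold tri elt
  rw [Finset.sum_mul_sum, Finset.sum_mul, map_sum, Fintype.sum_prod_type]
  refine Finset.sum_congr rfl fun i _ => ?_
  rw [Finset.sum_mul, map_sum, Fintype.sum_prod_type]
  refine Finset.sum_congr rfl fun j _ => ?_
  rw [Finset.mul_sum, map_sum]
  refine Finset.sum_congr rfl fun l _ => ?_
  have h1 : z (0, i) • α i * z (1, j) • α j * z (2, l) • α l =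
      (z (0, i) * z (1, j) * z (2, l)) • (α i * α j * α l) := by
    simp only [Algebra.smul_def, map_mul]
    ring
  rw [h1, map_smul, smul_eq_mul]
  unfold mon
  ring

/-- The read-once program of a monomial. -/
lemma byOrd_mon (α : Fin n → GaloisField 2 n) (q : Fin n × Fin n × Fin n) :
    ByOrd (Fin 3 × Fin n) 8 fun z => mon α q z = 1 := by
  rcases zmod_cases (Algebra.trace (ZMod 2) (GaloisField 2 n) (α q.1 * α q.2.1 * α q.2.2)) with h | h
  · have h1 : (fun z : Fin 3 × Fin n → ZMod 2 => mon α q z = 1) = fun _ => False := by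
      funext z
      unfold mon
      rw [h, zero_mul]
      simp
    rw [h1]
    exact byOrd_const (by norm_num) _
  · refine byOrd_obl (Q := Bool) [((0 : Fin 3), q.1), (1, q.2.1), (2, q.2.2)]
      (fun _ b v => b && decide (v = 1)) true id ?_ ?_ fun z => ?_
    · simp
    · simp
    · unfold mon
      rw [h, one_mul]
      show _ ↔ id (((true && decide (z (0, q.1) = 1)) && decide (z (1, q.2.1) = 1)) &&
        decide (z (2, q.2.2) = 1)) = true
      rcases zmod_cases (z (0, q.1)) with h1 | h1 <;> rcases zmod_cases (z (1, q.2.1)) with h2 | h2 <;>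
        rcases zmod_cases (z (2, q.2.2)) with h3 | h3 <;> rw [h1, h2, h3] <;> decide

/-- `tri` in parity mode. -/
theorem tri_parity (α : Fin n → GaloisField 2 n) :
    InParity (ByOrd (Fin 3 × Fin n) 8) (Nat.clog 2 (n ^ 3)) fun z => tri α z = 1 := by
  have h := Pool.Agent.UM.PARM.par_sum (w := Nat.clog 2 (n ^ 3)) (ByOrd (Fin 3 × Fin n) 8)
    (byOrd_const (by norm_num) _) (mon α) (byOrd_mon α) (by
      rw [Fintype.card_prod, Fintype.card_prod, Fintype.card_fin]
      calc n * (n * n) = n ^ 3 := by ring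
        _ ≤ 2 ^ Nat.clog 2 (n ^ 3) := Nat.le_pow_clog (by norm_num) _)
  have h1 : (fun z : Fin 3 × Fin n → ZMod 2 => tri α z = 1) = fun z => ∑ q, mon α q z = 1 := by
    funext z
    rw [tri_eq_mon]
  rw [h1]
  exact h

/-- `tri` in PSPACE mode. -/
theorem tri_pspace (α : Fin n → GaloisField 2 n) :
    InPSPACE (ByOrd (Fin 3 × Fin n) 8) (2 * Nat.clog 2 (n ^ 3)) fun z => tri α z = 1 :=
  Pool.Agent.UM.MODES.parity (fun _ b h => byOrd_const h.size_pos b) (fun _ h => h.compl)
    (tri_parity α)

end Pool.Agent.WRA
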